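import Mathlib.Data.Nat.Bitwise
import Mathlib.Data.List.Basic

/-! A certificate checker for the search of regular maps of given type and order. -/

set_option autoImplicit false

namespace Pool.Agent.MP_912f41_co.Eng

noncomputable section

def get (T p : ℕ) : ℕ := Nat.land (Nat.shiftRight T (Nat.mul 14 p)) 16383

def an (x y : Bool) : Bool := Bool.rec false y x

def nrm (n p : ℕ) : ℕ := Nat.add (Nat.sub p (Nat.mod p (Nat.mul 2 n))) (Nat.mod p n)

def cpos (n p : ℕ) : ℕ := Nat.add (Nat.mul (Nat.xor (Nat.div p (Nat.mul 2 n)) 1) (Nat.mul 2 n))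
  (Nat.mod (Nat.sub (Nat.mul 2 n) (Nat.mod p (Nat.mul 2 n))) n)

def cp (n e p : ℕ) : ℕ := Nat.rec p (fun _ _ => cpos n p) e

def dec (n x : ℕ) : ℕ := Nat.add x (Nat.mul (Nat.div x n) n)

def vx (n p : ℕ) : ℕ := Nat.div p (Nat.mul 4 n)

def dbl (n x : ℕ) : ℕ := Nat.lor x (Nat.shiftLeft x (Nat.mul 14 n))

def put2 (n T p x : ℕ) : ℕ :=
  Nat.rec (Nat.lor T (Nat.shiftLeft (dbl n x) (Nat.mul 14 p))) (fun _ _ => T)
    (Nat.land (Nat.shiftRight T (Nat.mul 14 p)) (dbl n 16383))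

/-- one quarter of a new edge -/
def set1 (n T f s u : ℕ) : ℕ :=
  Nat.rec T (fun u _ => Nat.rec (put2 n T (nrm n f) (nrm n s)) (fun u _ =>
    Nat.rec (put2 n T (nrm n s) (nrm n f)) (fun u _ => Nat.rec (put2 n T (cpos n f) (cpos n s))
      (fun _ _ => put2 n T (cpos n s) (cpos n f)) u) u) u) u

def set (n T f s : ℕ) : ℕ :=
  put2 n (put2 n (put2 n (put2 n T (nrm n f) (nrm n s)) (nrm n s) (nrm n f))
    (cpos n f) (cpos n s)) (cpos n s) (cpos n f)

def tr (T n l : ℕ) : ℕ → ℕ → ℕ :=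
  Nat.rec (motive := fun _ => ℕ → ℕ → ℕ) (fun p _ => p) (fun _ ih p w =>
    ih (Nat.add (Nat.land (Nat.shiftRight T (Nat.mul 14 p)) 16383) (Nat.mod w n)) (Nat.div w n)) l

def pth (T n l : ℕ) : ℕ → ℕ → ℕ :=
  Nat.rec (motive := fun _ => ℕ → ℕ → ℕ) (fun p _ => p) (fun _ ih p w =>
    ih (Nat.land (Nat.shiftRight T (Nat.mul 14 (Nat.add p (Nat.mod w n)))) 16383) (Nat.div w n)) l

/-- a full turn of a rotated relator -/
def cyc (T n l e w r g : ℕ) : ℕ :=
  tr T n r (cp n e (tr T n (Nat.sub l r) g (Nat.div w (Nat.pow n r)))) w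

def conf (T n l e w r g : ℕ) : Bool :=
  an (Nat.ble (Nat.succ r) l) (an (Nat.ble (Nat.mul 4 n) (cyc T n l e w r g))
    (Bool.rec true false (Nat.beq (nrm n (cyc T n l e w r g)) g)))

def run (T n l e w r s : ℕ) : ℕ :=
  tr T n r (cp n e (tr T n (Nat.sub l (Nat.succ r))
    (Nat.add s (Nat.mod (Nat.div w (Nat.pow n r)) n)) (Nat.div (Nat.div w (Nat.pow n r)) n))) w

def pw (T n l e w k : ℕ) : ℕ → ℕ :=
  Nat.rec (motive := fun _ => ℕ → ℕ) (fun p => p) (fun _ ih p => ih (cp n e (tr T n l p w))) k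

def closes (T n l e w k s : ℕ) : Bool :=
  Nat.blt 0 (get T s) && Nat.beq (nrm n (pw T n l e w k s)) s

def full (T n v : ℕ) : Bool :=
  Nat.rec (motive := fun _ => Bool) true (fun j ih => Nat.rec false (fun _ _ => ih)
    (get T (get T (Nat.add (Nat.mul v (Nat.mul 4 n)) (dec n j))))) (Nat.mul 2 n)

def wk (T n hv l : ℕ) : ℕ → ℕ → ℕ → ℕ → ℕ :=
  Nat.rec (motive := fun _ => ℕ → ℕ → ℕ → ℕ → ℕ)
    (fun _ g' _ K => Nat.rec 0 (fun _ _ => K) g') (fun _ ih g g' w K =>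
      (fun h h' => Bool.rec (motive := fun _ => ℕ)
        (ih h h' (Nat.div w n) (Nat.lor K (Nat.shiftLeft 1 (Nat.div h (Nat.mul 4 n)))))
        (ih h h' (Nat.div w n) K) (Nat.beq (Nat.div h' (Nat.mul 4 n)) hv))
      (Nat.land (Nat.shiftRight T (Nat.mul 14 (Nat.add g (Nat.mod w n)))) 16383)
      (Nat.land (Nat.shiftRight T (Nat.mul 14 (Nat.add g' (Nat.mod w n)))) 16383)) l

/-- the set of vertices excluded by one walk -/
def walk (T n f s l w : ℕ) : ℕ :=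
  Nat.rec 0 (fun _ _ => wk T n (vx n (get T s)) l f s w
    (Bool.rec (Nat.shiftLeft 1 (vx n f)) 0 (Nat.beq (vx n s) (vx n (get T s))))) (get T s)

def walks (T n f : ℕ) (K : ℕ) (l : List ℕ) : ℕ :=
  List.rec K (fun x _ ih => Nat.lor ih (walk T n f (dec n (Nat.mod x 8192))
    (Nat.mod (Nat.div x 8192) 256) (Nat.div x 2097152))) l

abbrev Rl := ℕ × ℕ × ℕ

def nth (R : List Rl) : ℕ → Rl :=
  List.rec (motive := fun _ => ℕ → Rl) (fun _ => (0, 0, 0))
    (fun x _ ih i => Nat.rec x (fun j _ => ih j) i) R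

def ded (n V T : ℕ) (q : Rl) (r s : ℕ) (k : ℕ → Bool) : Bool :=
  an (Nat.ble (Nat.succ r) q.1) (an (Nat.ble (Nat.mul 4 n) (run T n q.1 q.2.1 q.2.2 r s))
    (an (Nat.ble (Nat.succ (vx n s)) (Nat.succ V)) (k (set n T (run T n q.1 q.2.1 q.2.2 r s) s))))

def ops (n V : ℕ) (R : List Rl) (k : ℕ → ℕ → Bool) (l : ℕ) : ℕ → ℕ → ℕ → Bool :=
  Nat.rec (motive := fun _ => ℕ → ℕ → ℕ → Bool) (fun _ T F => k T F) (fun _ ih x T F =>
    Bool.rec (motive := fun _ => Bool)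
      (ded n V T (nth R (Nat.mod x 64)) (Nat.mod (Nat.div x 64) 256)
        (dec n (Nat.mod (Nat.div x 16384) 8192)) (fun T => ih (Nat.div x 134217728) T F))
      (an (full T n (Nat.mod (Nat.div x 16384) 8192)) (ih (Nat.div x 134217728) T
        (Nat.lor F (Nat.shiftLeft 1 (Nat.mod (Nat.div x 16384) 8192)))))
      (Nat.beq (Nat.mod x 64) 63)) l

def cand (n g j : ℕ) : ℕ := cp n (Nat.div j n) (Nat.add g (Nat.mod j n))

def cw (n l w j : ℕ) : ℕ := Nat.add w (Nat.mul (Nat.mod j n) (Nat.pow n l))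

/-- the loop over the flags of one vertex -/
def ql (T n f l w g : ℕ) (k : ℕ → Bool) (j : ℕ) : ℕ → Bool :=
  Nat.rec (motive := fun _ => ℕ → Bool) (fun _ => true) (fun j ih Q =>
    Nat.rec (motive := fun _ => Bool)
      (Nat.rec (motive := fun _ => Bool) (k j) (fun _ _ =>
        an (conf (set1 n T f (cand n g j) (Nat.mod Q 8)) n (Nat.succ l) (Nat.div j n) (cw n l w j)
          (Nat.mod (Nat.div Q 8) 64) (dec n (Nat.mod (Nat.div Q 512) 8192)))
          (ih (Nat.div Q 4194304))) (Nat.mod Q 4194304))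
      (fun _ _ => ih Q) (get T (get T (cand n g j)))) j

def dig (L q : ℕ) : ℕ := Nat.land (Nat.shiftRight L (Nat.mul 4 q)) 15

def lab (T n V L A C R : ℕ) : Bool :=
  Nat.rec (motive := fun _ => Bool) true (fun j ih => (fun q =>
    Nat.beq (dig L (get T q)) (dig A (dig L q)) && Nat.beq (dig L (cpos n q)) (dig C (dig L q)) &&
    Nat.beq (dig L (nrm n (Nat.succ q))) (dig R (dig L q)) && ih)
    (dec n (Nat.add j (Nat.mul 2 n)))) (2 * n * V)

def covers (K V : ℕ) : Bool := Nat.beq (Nat.land (Nat.lor K 1) (2 ^ (V + 1) - 1)) (2 ^ (V + 1) - 1)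

structure St where
  T : ℕ
  V : ℕ
  R : List Rl
  F : ℕ

def St.le (s t : St) : Bool := Nat.beq s.T t.T && Nat.beq s.V t.V &&
  Nat.beq (Nat.land s.F t.F) s.F && s.R.all fun q => t.R.any fun q' =>
    Nat.beq q.1 q'.1 && Nat.beq q.2.1 q'.2.1 && Nat.beq q.2.2 q'.2.2

inductive Ct
  | conf (i r g : ℕ)
  | ord (l e w r s : ℕ)
  | forb (j s : ℕ)
  | forb2 (e s : ℕ)
  | small
  | ori (L : ℕ)
  | cut (i : ℕ)
  | ops (l x : ℕ) (k : Ct)
  | rel (l e w s : ℕ) (k : Ct)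
  | br (f : ℕ) (ws : List ℕ) (k : Ct)
  | hv (l w : ℕ) (sub k : Ct)
  | new (k : Ct)
  | sub (Q : ℕ) (c k : Ct)
  | fin (Q : ℕ)

inductive Md
  | nd
  | hd (f K : ℕ)
  | sb (f g l w j : ℕ)

abbrev Ck := ℕ → ℕ → List Rl → ℕ → Md → Bool

def chk (m n N : ℕ) (L : List St) (c : Ct) : Ck :=
  Ct.rec (motive := fun _ => Ck)
  (fun i r g T _ R _ _ => conf T n (nth R i).1 (nth R i).2.1 (nth R i).2.2 r (dec n g))
  (fun l e w r s T _ _ _ _ => closes T n l e w r (dec n s) &&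
      Nat.ble (Nat.gcd r (2 * n * N)) r && !closes T n l e w (Nat.gcd r (2 * n * N)) (dec n s))
  (fun j s T _ _ _ _ => Nat.blt 0 (j % m) && closes T n 1 1 (n - 1) j (dec n s))
  (fun e s T _ _ _ _ => closes T n 1 e 0 1 (dec n s))
  (fun _ V _ F _ => covers F V && Nat.blt V N)
  (fun L T V _ F _ => covers F V && Nat.beq (dig L (4 * n)) 0 && lab T n V L 1 1 16)
  (fun i T V R F _ => (L.getD i ⟨1, 0, [], 0⟩).le ⟨T, V, R, F⟩ && Nat.blt i L.length)
  (fun l x _ k T V R F _ => ops n V R (fun T F => k T V R F .nd) l x T F)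
  (fun l e w s _ k T V R F _ => an (closes T n l e w 1 (dec n s)) (k T V ((l, e, w) :: R) F .nd))
  (fun f ws _ k T V R F _ => an (Nat.ble 1 (vx n (dec n f))) (an (Nat.ble (vx n (dec n f)) V)
      (an (Nat.beq (get T (dec n f)) 0) (k T V R F (.hd (dec n f) (walks T n (dec n f) F ws))))))
  (fun l w _ _ sub k T V R F md => Md.rec false (fun f K =>
      an (Nat.ble 1 (pth T n l f w)) (an (Nat.ble (Nat.succ w) (Nat.pow n l))
      (an (sub T V R F (.sb f (pth T n l f w) l w (Nat.mul 2 n)))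
      (k T V R F (.hd f (Nat.lor K (Nat.shiftLeft 1 (vx n (pth T n l f w)))))))))
      (fun _ _ _ _ _ => false) md)
  (fun _ k T V R F md => Md.rec false (fun f K => an (covers K V) (Bool.rec
      (k (set n T f (Nat.mul (Nat.mul 4 n) (Nat.succ V))) (Nat.succ V) R F .nd) true (Nat.ble N V)))
      (fun _ _ _ _ _ => false) md)
  (fun Q _ _ c k T V R F md => Md.rec false (fun _ _ => false) (fun f g l w j =>
      ql T n f l w g (fun j => an (c (set n T f (cand n g j)) V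
        ((Nat.succ l, Nat.div j n, cw n l w j) :: R) F .nd) (k T V R F (.sb f g l w j))) j Q) md)
  (fun Q T _ _ _ md => Md.rec false (fun _ _ => false) (fun f g l w j =>
      ql T n f l w g (fun _ => false) j Q) md) c

def bw (n : ℕ) : ℕ → ℕ
  | 0 => 0
  | 1 => n - 1
  | m + 2 => n - 1 + n * (1 + n * bw n m)

def init (m n : ℕ) : St := ⟨0, 1, [(m, m % 2, bw n m)], 0⟩

def chkS (m n N : ℕ) (L : List St) (c : Ct) (s : St) : Bool := chk m n N L c s.T s.V s.R s.F .nd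

end

end Pool.Agent.MP_912f41_co.Eng
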