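import Mathlib.Data.Fin.VecNotation
import Pool.Agent.MP_912f41_co.Defs

/-! The complete list, with the exceptional maps for `p = 2, 3, 5, 7, 31`: definitions. -/

set_option autoImplicit false

namespace Pool.Agent.MP_912f41_co

open Equiv

/-- a product of transpositions of `0, ..., 9`; the number `10 i + j` stands for `(i j)` -/
def sw (l : List ℕ) : Perm (Fin 10) :=
  (l.map fun d => swap (Fin.ofNat 10 (d / 10)) (Fin.ofNat 10 (d % 10))).prod

/-- the primes of the fourteen exceptional maps -/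
def exP : Fin 14 → ℕ := ![2, 2, 2, 3, 5, 5, 5, 7, 7, 7, 7, 31, 31, 31]

def exA : Fin 14 → List ℕ := ![[1, 23, 56], [1, 23], [1, 23], [1, 23, 48, 67], [1], [1], [1, 23],
  [1, 23, 48, 67], [1, 23, 46, 57], [1, 23, 56], [1, 23], [1, 23, 48, 67], [1, 23, 48, 67],
  [1, 23, 48, 67]]

def exB : Fin 14 → List ℕ := ![[1, 24, 56], [1, 24], [4, 15, 68, 79], [2, 14, 38, 56], [2, 14, 56],
  [2, 14], [4], [2, 14, 38, 56], [2, 14, 35, 67], [1, 24], [1, 24, 56], [1, 24, 36, 58],
  [1, 28, 47, 56], [1, 25, 37, 46]]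

def exC : Fin 14 → List ℕ := ![[2, 13], [2, 13, 56], [2, 13, 48, 59], [2, 13, 47, 68], [23, 56],
  [23, 56], [2, 13], [3, 12, 46, 78], [1, 45, 67], [2, 13, 56], [2, 13], [2, 13, 47, 68],
  [3, 12, 46, 78], [2, 13, 47, 68]]

/-- names of the maps in the complete list -/
inductive Entry
  | fam (τ : Fam)
  | exc (i : Fin 14)

/-- the members of the list that belong to the prime `p` -/
def Entry.ok (p : ℕ) : Entry → Prop
  | .fam τ => τ.ok p
  | .exc i => exP i = p

/-- the triple `r0, r1, r2` is a copy of the explicit triple with the given name -/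
def Entry.Model {G : Type} [Group G] : Entry → G → G → G → Prop
  | .fam τ, r0, r1, r2 => τ.Model r0 r1 r2
  | .exc i, r0, r1, r2 => Emb r0 r1 r2 (sw (exA i)) (sw (exB i)) (sw (exC i))

end Pool.Agent.MP_912f41_co
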