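import Pool.Agent.MP_912f41_co.Case

/-! Sylow subgroups of prime order. -/

set_option autoImplicit false

namespace Pool.Agent.MP_912f41_co

open Subgroup

variable {G : Type} [Group G] {a b c : G}

theorem burn [Finite G] {u : G} (hp : (orderOf u).Prime) (pk : ¬ orderOf u ∣ (zpowers u).index)
    (h : ∀ g ∈ normalizer (zpowers u : Set G), g * u = u * g) :
    ∃ M : Subgroup G, u ∉ M ∧ ∀ g, (orderOf g).Coprime (orderOf u) → g ∈ M := by
  have := Fact.mk hp
  set P := (isP_zp (u := u) (r := orderOf u) (k := 1) (by simp)).toSylow pk with hP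
  have hc : normalizer (P : Set G) ≤ centralizer (P : Set G) := fun g hg w hw => by
    obtain ⟨i, rfl⟩ := mem_zpowers_iff.1 hw
    exact (Commute.zpow_right (h g hg) i).symm
  refine ⟨(MonoidHom.transferSylow P hc).ker, fun hu => hp.ne_one (orderOf_eq_one_iff.2
    (disjoint_def.1 (MonoidHom.ker_transferSylow_isComplement' P hc).disjoint hu (mem_zpowers u))),
    fun g hg => Subtype.ext (eq_one_of_pow_coprime ?_ ?_ hg)⟩
  · rw [← Subgroup.coe_pow, ← map_pow, pow_orderOf_eq_one, map_one, Subgroup.coe_one]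
  · exact orderOf_dvd_iff_pow_eq_one.1 (orderOf_dvd_of_mem_zpowers (MonoidHom.transferSylow P hc g).2)

theorem WM.even_gen (h : WM a b c) (σ : G →* ℤˣ) {M : Subgroup G} {k : ℕ}
    (hM : ∀ g, σ g = 1 → orderOf g ∣ k → g ∈ M) (k2 : 2 ∣ k) (hm : orderOf (a * b) ∣ k)
    (hn : orderOf (b * c) ∣ k) (g : G) : σ g = 1 → g ∈ M := by
  have o2 : ∀ s : G, s * s = 1 → orderOf s ∣ k := fun s hs =>
    (orderOf_dvd_of_pow_eq_one ((sq s).trans hs)).trans k2
  have one : orderOf (1 : G) ∣ k := o2 1 (mul_one 1)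
  have ca : c * a * (c * a) = 1 := by rw [mul_assoc, ← h.ac, mul_cancel_inv h.a2, h.c2]
  have pm : ∀ g, σ g ≠ 1 → σ g = -1 := fun g => (Int.units_eq_one_or _).resolve_left
  obtain ⟨s, s2, hs⟩ : ∃ s : G, s * s = 1 ∧ ∀ y ∈ ({a, b, c} : Set G), σ y = -1 →
      σ s = -1 ∧ orderOf (y * s) ∣ k := by
    by_cases hb : σ b = 1
    · by_cases ha : σ a = 1
      · refine ⟨c, h.c2, ?_⟩
        rintro y (rfl | rfl | rfl) hy
        exacts [absurd (ha.symm.trans hy) (by decide), absurd (hb.symm.trans hy) (by decide),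
          ⟨hy, h.c2 ▸ one⟩]
      · refine ⟨a, h.a2, ?_⟩
        rintro y (rfl | rfl | rfl) hy
        exacts [⟨hy, h.a2 ▸ one⟩, absurd (hb.symm.trans hy) (by decide), ⟨pm _ ha, o2 _ ca⟩]
    · refine ⟨b, h.b2, fun y hy _ => ⟨pm _ hb, ?_⟩⟩
      rcases hy with rfl | rfl | rfl
      exacts [hm, h.b2 ▸ one, ord_dual h.b2 h.c2 ▸ hn]
  have y2 : ∀ y ∈ ({a, b, c} : Set G), y * y = 1 := by
    rintro y (rfl | rfl | rfl)
    exacts [h.a2, h.b2, h.c2]
  have st : ∀ x, ∀ y ∈ ({a, b, c} : Set G), ((σ x = 1 ∧ x ∈ M) ∨ (σ x = -1 ∧ σ s = -1 ∧ x * s ∈ M)) →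
      ((σ (x * y) = 1 ∧ x * y ∈ M) ∨ (σ (x * y) = -1 ∧ σ s = -1 ∧ x * y * s ∈ M)) := by
    intro x y hy hx
    rcases Int.units_eq_one_or (σ y) with e | e
    · rcases hx with ⟨h1, h2⟩ | ⟨h1, h2, h3⟩
      · exact Or.inl ⟨by rw [map_mul, h1, e, mul_one], mul_mem h2 (hM y e (o2 y (y2 y hy)))⟩
      · refine Or.inr ⟨by rw [map_mul, h1, e, mul_one], h2, ?_⟩
        have := mul_mem h3 (hM (s * y * s) (by simp [h2, e]) (o2 _ (by
          simp only [mul_assoc, mul_cancel_inv s2, mul_cancel_inv (y2 y hy), s2])))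
        simpa only [mul_assoc, mul_cancel_inv s2] using this
    · have h4 := hM (y * s) (by simp [e, (hs y hy e).1]) (hs y hy e).2
      rcases hx with ⟨h1, h2⟩ | ⟨h1, h2, h3⟩
      · exact Or.inr ⟨by rw [map_mul, h1, e, one_mul], (hs y hy e).1, mul_assoc x y s ▸ mul_mem h2 h4⟩
      · refine Or.inl ⟨by simp [h1, e], ?_⟩
        have := mul_mem h3 (inv_mem h4)
        simpa only [inv_mul_inv (y2 y hy) s2, mul_assoc, mul_cancel_inv s2] using this
  intro hg
  refine ((closure_induction_right (p := fun x _ => (σ x = 1 ∧ x ∈ M) ∨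
    (σ x = -1 ∧ σ s = -1 ∧ x * s ∈ M)) (Or.inl ⟨map_one σ, one_mem M⟩) (fun x _ y hy => st x y hy)
    (fun x _ y hy => (inv_eq_self (y2 y hy)).symm ▸ st x y hy) (h.gen ▸ mem_top g)).resolve_right
    fun h1 => absurd (hg.symm.trans h1.1) (by decide)).2

theorem sign_odd [Finite G] (σ : G →* ℤˣ) {g : G} (h : Odd (orderOf g)) : σ g = 1 :=
  eq_one_of_odd (h.of_dvd_nat (orderOf_map_dvd σ g)) (Int.units_mul_self _)

theorem WM.no_compl [Finite G] (h : WM a b c) (σ : G →* ℤˣ) {u : G} (hp : (orderOf u).Prime)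
    (p2 : Odd (orderOf u)) {k : ℕ} (hi : (zpowers u).index = k) (pk : ¬ orderOf u ∣ k) (k2 : 2 ∣ k)
    (hm : orderOf (a * b) ∣ k) (hn : orderOf (b * c) ∣ k)
    (hN : ∀ g ∈ normalizer (zpowers u : Set G), σ g = 1 → g * u = u * g) : False := by
  set u' : σ.ker := ⟨u, sign_odd σ p2⟩ with hu
  have e : orderOf u' = orderOf u := Subgroup.orderOf_mk _ _
  obtain ⟨M, h1, h2⟩ := burn (u := u') (e ▸ hp) (fun hd => pk (by
      have h3 := index_mul_card (zpowers u')
      have h4 := index_mul_card (zpowers u)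
      rw [Nat.card_zpowers, e] at h3
      rw [Nat.card_zpowers, hi] at h4
      refine (e ▸ hd).trans (Nat.dvd_of_mul_dvd_mul_right hp.pos ?_)
      rw [h3, h4]
      exact card_subgroup_dvd_card _)) fun g hg => Subtype.ext (hN g (mem_normalizer_zp.2 (by
      obtain ⟨i, hi⟩ := mem_zpowers_iff.1 (mem_normalizer_zp.1 hg)
      exact mem_zpowers_iff.2 ⟨i, congrArg Subtype.val hi⟩)) g.2)
  obtain ⟨v, hv, e1⟩ := h.even_gen σ (M := M.map σ.ker.subtype) (fun g hg ho => ⟨⟨g, MonoidHom.mem_ker.2 hg⟩, h2 _ (by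
    rw [e, Subgroup.orderOf_mk g (MonoidHom.mem_ker.2 hg)]
    exact ((hp.coprime_iff_not_dvd.2 pk).symm).coprime_dvd_left ho), rfl⟩) k2 hm hn u u'.2
  exact h1 ((Subtype.ext e1 : v = u') ▸ hv)

theorem gen_of_prime [Finite G] {u w : G} (hp : (orderOf u).Prime) (hw : w ∈ zpowers u)
    (w1 : w ≠ 1) : u ∈ zpowers w := cyc_mem_zp hw (mem_zpowers u)
  ((hp.eq_one_or_self_of_dvd _ (orderOf_dvd_of_mem_zpowers hw)).resolve_left
    (mt orderOf_eq_one_iff.1 w1)).symm.dvd

theorem parity [Finite G] {u : G} (hp : (orderOf u).Prime) (p4 : orderOf u % 4 = 3)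
    (pk : ¬ orderOf u ∣ (zpowers u).index)
    (hi : (normalizer (zpowers u : Set G)).index = orderOf u + 1) : ∃ σ : G →* ℤˣ,
      ∀ g ∈ normalizer (zpowers u : Set G), g ^ 2 * u = u * g ^ 2 → σ g = 1 → g * u = u * g := by
  classical
  have := Fact.mk hp
  set D := normalizer (zpowers u : Set G) with hD
  have XD : zpowers u ≤ D := le_normalizer
  have T2 : ∀ g ∉ D, ∀ w ∈ zpowers u, g⁻¹ * w * g ∈ D → w = 1 := fun g hg w hw h1 => by
    by_contra h2
    have h3 := (isP_zp (u := g⁻¹ * w * g) (r := orderOf u) (k := 1) (by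
      rw [orderOf_conj', pow_one]
      exact orderOf_dvd_of_mem_zpowers hw)).inf_normalizer_sylow
      ((isP_zp (u := u) (r := orderOf u) (k := 1) (by simp)).toSylow pk)
    have h4 : g⁻¹ * w * g ∈ zpowers u := (h3.le ⟨mem_zpowers _, h1⟩).2
    obtain ⟨i, e⟩ := mem_zpowers_iff.1 (gen_of_prime hp hw h2)
    refine hg (inv_mem_iff.1 (mem_normalizer_zp.2 ?_))
    rw [← e, ← conj_zpow, inv_inv, e]
    exact zpow_mem h4 i
  obtain ⟨c, cD⟩ : ∃ c, c ∉ D := by
    by_contra h1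
    rw [(eq_top_iff' D).2 fun c => not_not.1 fun h2 => h1 ⟨c, h2⟩, index_top] at hi
    omega
  have inj : ∀ v ∈ zpowers u, ∀ w ∈ zpowers u, ((v * c : G) : G ⧸ D) = (w * c : G) → v = w :=
    fun v hv w hw e => inv_mul_eq_one.1
      (T2 c cD _ (mul_mem (inv_mem hv) hw) (by simpa [mul_assoc] using QuotientGroup.eq.1 e))
  have ne1 : ∀ g ∈ D, ((g * c : G) : G ⧸ D) ≠ (1 : G) := fun g hg e => by
    have h1 := QuotientGroup.eq.1 e
    rw [mul_one, inv_mem_iff] at h1
    exact cD ((mul_mem_cancel_left hg).1 h1)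
  have cov : insert ((1 : G) : G ⧸ D) ((fun w : G => ((w * c : G) : G ⧸ D)) '' zpowers u) =
      Set.univ := by
    refine Set.eq_of_subset_of_ncard_le (Set.subset_univ _) (le_of_eq ?_)
    rw [Set.ncard_insert_of_notMem, ncard_image_conj _ inj, Nat.card_zpowers, Set.ncard_univ,
      ← index, hi]
    exact fun ⟨w, hw, e⟩ => ne1 w (XD hw) e
  have := Fintype.ofFinite (G ⧸ D)
  refine ⟨Equiv.Perm.sign.comp (MulAction.toPermHom G (G ⧸ D)), fun g hg g2 hσ => ?_⟩
  by_contra gu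
  obtain ⟨w, hw, e⟩ := (cov ▸ Set.mem_univ ((g * c : G) : G ⧸ D)).resolve_left (ne1 g hg)
  set t := w⁻¹ * g with ht
  have tD : t ∈ D := mul_mem (inv_mem (XD hw)) hg
  have cj : ∀ v ∈ zpowers u, t * v * t⁻¹ ∈ zpowers u := fun v => zp_conj (mem_normalizer_zp.1 tD)
  have tc : t • (c : G ⧸ D) = c := by
    rw [ht, mul_smul, inv_smul_eq_iff]
    exact e.symm
  have ap : ∀ v : G, t • ((v * c : G) : G ⧸ D) = ((t * v * t⁻¹ * c : G) : G ⧸ D) := fun v => by
    show t • v • (c : G ⧸ D) = (t * v * t⁻¹) • (c : G ⧸ D)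
    rw [mul_smul (t * v), mul_smul t, (inv_smul_eq_iff.2 tc.symm : t⁻¹ • (c : G ⧸ D) = c)]
  have t1 : t • ((1 : G) : G ⧸ D) = (1 : G) := QuotientGroup.eq.2 (by simpa using tD)
  have tg : ∀ v ∈ zpowers u, t * v * t⁻¹ = g * v * g⁻¹ := fun v hv => by
    have := cyc_comm (zp_conj (mem_normalizer_zp.1 hg) hv) hw
    rw [ht, mul_inv_rev, inv_inv, mul_assoc, mul_assoc, inv_mul_eq_iff_eq_mul, ← this]
    simp only [mul_assoc]
  have fx : Function.fixedPoints (MulAction.toPermHom G (G ⧸ D) t) =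
      {((1 : G) : G ⧸ D), (c : G ⧸ D)} := by
    ext q
    refine ⟨fun hq => ?_, by rintro (rfl | rfl); exacts [t1, tc]⟩
    rcases cov ▸ Set.mem_univ q with h1 | ⟨v, hv, rfl⟩
    · exact Or.inl h1
    · have h2 := inj _ (cj v hv) v hv ((ap v).symm.trans hq)
      rw [tg v hv, mul_inv_eq_iff_eq_mul] at h2
      by_cases v1 : v = 1
      · exact Or.inr (by simp [v1])
      obtain ⟨i, e⟩ := mem_zpowers_iff.1 (gen_of_prime hp hv v1)
      exact absurd (e ▸ (Commute.zpow_right h2 i).eq) gu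
  have t2 : MulAction.toPermHom G (G ⧸ D) t ^ 2 = 1 := by
    ext q
    show t • t • q = q
    rcases cov ▸ Set.mem_univ q with h1 | ⟨v, hv, rfl⟩
    · rw [h1, t1, t1]
    · obtain ⟨i, rfl⟩ := mem_zpowers_iff.1 hv
      have := (Commute.zpow_right g2 i).eq
      simp only [ap]
      rw [tg _ (cj _ hv), tg _ hv, show g * (g * u ^ i * g⁻¹) * g⁻¹ = g ^ 2 * u ^ i * (g ^ 2)⁻¹ by
        simp only [sq, mul_assoc, mul_inv_rev],
        this, mul_inv_cancel_right]
  have h5 := sign_odd (Equiv.Perm.sign.comp (MulAction.toPermHom G (G ⧸ D)))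
    ((Nat.odd_iff.2 (by omega : orderOf u % 2 = 1)).of_dvd_nat (orderOf_dvd_of_mem_zpowers (inv_mem hw)))
  have h6 := map_mul (Equiv.Perm.sign.comp (MulAction.toPermHom G (G ⧸ D))) w⁻¹ g
  rw [h5, hσ, ← ht, MonoidHom.comp_apply, Equiv.Perm.sign_of_pow_two_eq_one t2,
    ← Nat.card_eq_fintype_card, ← Nat.card_eq_fintype_card, ← index, hi, Nat.card_coe_set_eq, fx,
    Set.ncard_pair fun e => ne1 1 (one_mem _) (by rw [one_mul, e]),
    Odd.neg_one_pow (Nat.odd_iff.2 (by omega))] at h6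
  exact absurd h6 (by decide)

theorem pow_gcd_comm [Finite G] {u : G} (hp : (orderOf u).Prime) {g : G}
    (hg : g ∈ normalizer (zpowers u : Set G)) :
    g ^ Nat.gcd (orderOf u - 1) ((zpowers u).relIndex (normalizer (zpowers u : Set G))) * u =
      u * g ^ Nat.gcd (orderOf u - 1) ((zpowers u).relIndex (normalizer (zpowers u : Set G))) := by
  have h1 := card_subgroup_dvd_card (zpowers u).normalizerMonoidHom.range
  rw [← index_ker, IsCyclic.card_mulAut, Nat.card_zpowers, Nat.totient_prime hp] at h1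
  have h2 : (zpowers u).normalizerMonoidHom.ker.index ∣
      (zpowers u).relIndex (normalizer (zpowers u : Set G)) :=
    index_dvd_of_le fun v hv => by
      rw [normalizerMonoidHom_ker]
      exact fun w hw => cyc_comm hw hv
  obtain ⟨d, hd⟩ := Nat.dvd_gcd h1 h2
  have h3 := pow_mem (pow_index_mem (H := (zpowers u).normalizerMonoidHom.ker) ⟨g, hg⟩) d
  rw [← pow_mul, ← hd, normalizerMonoidHom_ker] at h3
  exact (h3 u (mem_zpowers u)).symm

theorem WM.not_normal [Finite G] (h : WM a b c) {u : G} (hp : (orderOf u).Prime)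
    (p2 : Odd (orderOf u)) {k : ℕ} (hi : (zpowers u).index = k) (pk : ¬ orderOf u ∣ k) (k2 : 2 ∣ k)
    (hm : orderOf (a * b) ∣ k) (hn : orderOf (b * c) ∣ k) (nn : (zpowers u).Normal) : False := by
  have o2 : ∀ s : G, s * s = 1 → orderOf s ∣ k := fun s hs =>
    (orderOf_dvd_of_pow_eq_one ((sq s).trans hs)).trans k2
  have ac : a * c * (a * c) = 1 := by
    rw [mul_assoc, ← mul_assoc c, ← h.ac, mul_assoc, h.c2, mul_one, h.a2]
  rcases pm_of_prime hp nn h.b2 with hb | hb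
  · rcases pm_of_prime hp nn h.a2 with ha | ha
    · obtain ⟨H, nt, hs, hH⟩ := compl_inv hp p2 nn hi pk h.c2 k2
      exact nt (h.eq_top (hH a ha (o2 a h.a2)) (hH b hb (o2 b h.b2)) hs)
    · obtain ⟨H, nt, hs, hH⟩ := compl_inv hp p2 nn hi pk h.a2 k2
      refine nt (h.eq_top hs (hH b hb (o2 b h.b2)) ?_)
      rcases pm_of_prime hp nn h.c2 with hc | hc
      · exact hH c hc (o2 c h.c2)
      · exact (mul_mem_cancel_left hs).1 (hH _
          (fun w hw => comm_of_inv h.a2 h.c2 (ha _ (inv_mem hw)) (hc w hw)) (o2 _ ac))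
  · obtain ⟨H, nt, hs, hH⟩ := compl_inv hp p2 nn hi pk h.b2 k2
    refine nt (h.eq_top ?_ hs ?_)
    · rcases pm_of_prime hp nn h.a2 with ha | ha
      · exact hH a ha (o2 a h.a2)
      · exact (mul_mem_cancel_right hs).1 (hH _
          (fun w hw => comm_of_inv h.a2 h.b2 (ha _ (inv_mem hw)) (hb w hw)) hm)
    · rcases pm_of_prime hp nn h.c2 with hc | hc
      · exact hH c hc (o2 c h.c2)
      · exact (mul_mem_cancel_left hs).1 (hH _
          (fun w hw => comm_of_inv h.b2 h.c2 (hb _ (inv_mem hw)) (hc w hw)) hn)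

/-- the numerical condition left by the Sylow count -/
def Sv (p k : ℕ) : Prop := ∃ v ≤ k, v ∣ k ∧ v % p = 1 ∧ v ≠ 1 ∧ Nat.gcd (p - 1) (k / v) ≠ 1 ∧
  ¬ (v = p + 1 ∧ p % 4 = 3 ∧ Nat.gcd (p - 1) (k / v) = 2)

instance (p k : ℕ) : Decidable (Sv p k) := by unfold Sv; infer_instance

theorem WM.sieve [Finite G] (h : WM a b c) {p k : ℕ} (hp : p.Prime) (p2 : Odd p)
    (hk : Nat.card G = k * p) (pk : ¬ p ∣ k) (k2 : 2 ∣ k) (hm : orderOf (a * b) ∣ k)
    (hn : orderOf (b * c) ∣ k) : Sv p k := by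
  have := Fact.mk hp
  obtain ⟨u, rfl⟩ := exists_prime_orderOf_dvd_card' (G := G) p (hk ▸ Dvd.intro_left k rfl)
  have hi : (zpowers u).index = k := by
    have := index_mul_card (zpowers u)
    rw [hk, Nat.card_zpowers] at this
    exact Nat.eq_of_mul_eq_mul_right hp.pos this
  set P := (isP_zp (u := u) (r := orderOf u) (k := 1) (by simp)).toSylow (hi ▸ pk) with hP
  have m1 := card_sylow_modEq_one (orderOf u) G
  rw [P.card_eq_index_normalizer] at m1
  change (normalizer (zpowers u : Set G)).index ≡ 1 [MOD _] at m1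
  have e := relIndex_mul_index (le_normalizer (H := zpowers u))
  have i0 : 0 < (normalizer (zpowers u : Set G)).index := Nat.pos_of_ne_zero index_ne_zero_of_finite
  have e1 : k / (normalizer (zpowers u : Set G)).index =
    (zpowers u).relIndex (normalizer (zpowers u : Set G)) := by rw [← hi, ← e, Nat.mul_div_cancel _ i0]
  have d : (normalizer (zpowers u : Set G)).index ∣ k := Dvd.intro_left _ (e.trans hi)
  refine ⟨_, Nat.le_of_dvd (Nat.pos_of_ne_zero (by rintro rfl; exact pk (dvd_zero _))) d, d,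
    Eq.trans m1 (Nat.mod_eq_of_lt hp.one_lt), fun e2 => h.not_normal hp p2 hi pk k2 hm hn
      (normalizer_eq_top_iff.1 (index_eq_one.1 e2)), fun e2 => h.no_compl 1 hp p2 hi pk k2 hm hn
      fun g hg _ => ?_, fun ⟨e2, e3, e4⟩ => ?_⟩
  · have := pow_gcd_comm hp hg
    rwa [← e1, e2, pow_one] at this
  · obtain ⟨σ, hσ⟩ := parity hp e3 (hi ▸ pk) e2
    refine h.no_compl σ hp p2 hi pk k2 hm hn fun g hg => hσ g hg ?_
    have := pow_gcd_comm hp hg
    rwa [← e1, e4] at this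

end Pool.Agent.MP_912f41_co
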