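import Pool.Agent.MP_912f41_co.Main
import Pool.Agent.MP_912f41_co.All.Mod
import Pool.Agent.MP_912f41_co.All.C00
import Pool.Agent.MP_912f41_co.All.C01
import Pool.Agent.MP_912f41_co.All.C02
import Pool.Agent.MP_912f41_co.All.C03
import Pool.Agent.MP_912f41_co.All.C04
import Pool.Agent.MP_912f41_co.All.C05
import Pool.Agent.MP_912f41_co.All.C06
import Pool.Agent.MP_912f41_co.All.C07
import Pool.Agent.MP_912f41_co.All.C08
import Pool.Agent.MP_912f41_co.All.C09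
import Pool.Agent.MP_912f41_co.All.C10
import Pool.Agent.MP_912f41_co.All.C11
import Pool.Agent.MP_912f41_co.All.C12
import Pool.Agent.MP_912f41_co.All.Sieve

/-! The classification for all primes. -/

set_option autoImplicit false

namespace Pool.Agent.MP_912f41_co.Eng

theorem gc3_7_24_0 : Good 3 7 24 (init 3 7) :=
  good_of hc3_7_24_0 gnil

theorem gc3_8_12_0 : Good 3 8 12 (init 3 8) :=
  good_of hc3_8_12_0 gnil

theorem gc3_9_8_0 : Good 3 9 8 (init 3 9) :=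
  good_of hc3_9_8_0 gnil

theorem gc3_10_6_2 : Good 3 10 6 (init 3 10) :=
  good_of hc3_10_6_2 (gcons gmd_3_10_5_10 (gcons gmd_3_10_10_10 gnil))

theorem gc3_12_4_0 : Good 3 12 4 (init 3 12) :=
  good_of hc3_12_4_0 gnil

theorem gc3_18_2_0 : Good 3 18 2 (init 3 18) :=
  good_of hc3_18_2_0 gnil

theorem gc4_5_16_1 : Good 4 5 16 (init 4 5) :=
  good_of hc4_5_16_1 (gcons gmd_4_5_5_4 gnil)

theorem gc4_6_8_0 : Good 4 6 8 (init 4 6) :=
  good_of hc4_6_8_0 gnil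

theorem gc4_8_4_0 : Good 4 8 4 (init 4 8) :=
  good_of hc4_8_4_0 gnil

theorem gc4_12_2_0 : Good 4 12 2 (init 4 12) :=
  good_of hc4_12_2_0 gnil

theorem gc5_5_8_0 : Good 5 5 8 (init 5 5) :=
  good_of hc5_5_8_0 gnil

theorem gc5_10_2_0 : Good 5 10 2 (init 5 10) :=
  good_of hc5_10_2_0 gnil

theorem gc6_6_4_0 : Good 6 6 4 (init 6 6) :=
  good_of hc6_6_4_0 gnil

theorem gc8_8_2_0 : Good 8 8 2 (init 8 8) :=
  good_of hc8_8_2_0 gnil

theorem gc3_7_36_1 : Good 3 7 36 (init 3 7) :=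
  good_of hc3_7_36_1 (gcons gmd_3_7_9_7 gnil)

theorem gc3_8_18_0 : Good 3 8 18 (init 3 8) :=
  good_of hc3_8_18_0 gnil

theorem gc3_9_12_0 : Good 3 9 12 (init 3 9) :=
  good_of hc3_9_12_0 gnil

theorem gc3_10_9_0 : Good 3 10 9 (init 3 10) :=
  good_of hc3_10_9_0 gnil

theorem gc3_12_6_0 : Good 3 12 6 (init 3 12) :=
  good_of hc3_12_6_0 gnil

theorem gc3_18_3_0 : Good 3 18 3 (init 3 18) :=
  good_of hc3_18_3_0 gnil

theorem gc4_5_24_0 : Good 4 5 24 (init 4 5) :=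
  good_of hc4_5_24_0 gnil

theorem gc4_6_12_0 : Good 4 6 12 (init 4 6) :=
  good_of hc4_6_12_0 gnil

theorem gc4_8_6_0 : Good 4 8 6 (init 4 8) :=
  good_of hc4_8_6_0 gnil

theorem gc4_12_3_0 : Good 4 12 3 (init 4 12) :=
  good_of hc4_12_3_0 gnil

theorem gc5_5_12_0 : Good 5 5 12 (init 5 5) :=
  good_of hc5_5_12_0 gnil

theorem gc5_10_3_0 : Good 5 10 3 (init 5 10) :=
  good_of hc5_10_3_0 gnil

theorem gc6_6_6_0 : Good 6 6 6 (init 6 6) :=
  good_of hc6_6_6_0 gnil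

theorem gc3_7_60_0 : Good 3 7 60 (init 3 7) :=
  good_of hc3_7_60_0 gnil

theorem gc3_8_30_0 : Good 3 8 30 (init 3 8) :=
  good_of hc3_8_30_0 gnil

theorem gc3_9_20_0 : Good 3 9 20 (init 3 9) :=
  good_of hc3_9_20_0 gnil

theorem gc3_10_15_0 : Good 3 10 15 (init 3 10) :=
  good_of hc3_10_15_0 gnil

theorem gc3_12_10_0 : Good 3 12 10 (init 3 12) :=
  good_of hc3_12_10_0 gnil

theorem gc3_18_5_0 : Good 3 18 5 (init 3 18) :=
  good_of hc3_18_5_0 gnil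

theorem gc4_5_40_0 : Good 4 5 40 (init 4 5) :=
  good_of hc4_5_40_0 gnil

theorem gc4_6_20_2 : Good 4 6 20 (init 4 6) :=
  good_of hc4_6_20_2 (gcons gmd_4_6_5_6 (gcons gmd_4_6_10_6 gnil))

theorem gc4_8_10_0 : Good 4 8 10 (init 4 8) :=
  good_of hc4_8_10_0 gnil

theorem gc4_12_5_0 : Good 4 12 5 (init 4 12) :=
  good_of hc4_12_5_0 gnil

theorem gc5_5_20_0 : Good 5 5 20 (init 5 5) :=
  good_of hc5_5_20_0 gnil

theorem gc5_10_5_0 : Good 5 10 5 (init 5 10) :=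
  good_of hc5_10_5_0 gnil

theorem gc6_6_10_1 : Good 6 6 10 (init 6 6) :=
  good_of hc6_6_10_1 (gcons gmd_6_6_6_5 gnil)

theorem gc3_7_84_0 : Good 3 7 84 (init 3 7) :=
  good_of hc3_7_84_0 gnil

theorem gc3_8_42_0 : Good 3 8 42 (init 3 8) :=
  good_of hc3_8_42_0 gnil

theorem gc3_9_28_1 : Good 3 9 28 (init 3 9) :=
  good_of hc3_9_28_1 (gcons gmd_3_9_7_9 gnil)

theorem gc3_10_21_0 : Good 3 10 21 (init 3 10) :=
  good_of hc3_10_21_0 gnil

theorem gc3_12_14_0 : Good 3 12 14 (init 3 12) :=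
  good_of hc3_12_14_0 gnil

theorem gc4_6_28_1 : Good 4 6 28 (init 4 6) :=
  good_of hc4_6_28_1 (gcons gmd_4_6_8_8 gnil)

theorem gc4_12_7_0 : Good 4 12 7 (init 4 12) :=
  good_of hc4_12_7_0 gnil

theorem gc6_6_14_0 : Good 6 6 14 (init 6 6) :=
  good_of hc6_6_14_0 gnil

theorem gc3_10_33_0 : Good 3 10 33 (init 3 10) :=
  good_of hc3_10_33_0 gnil

theorem gc3_7_156_0 : Good 3 7 156 sc3_7_156_0 :=
  good_of hc3_7_156_0 gnil

theorem gc3_7_156_1 : Good 3 7 156 sc3_7_156_1 :=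
  good_of hc3_7_156_1 (gcons gc3_7_156_0 gnil)

theorem gc3_7_156_2 : Good 3 7 156 (init 3 7) :=
  good_of hc3_7_156_2 (gcons gc3_7_156_1 gnil)

theorem gc4_5_104_0 : Good 4 5 104 sc4_5_104_0 :=
  good_of hc4_5_104_0 gnil

theorem gc4_5_104_1 : Good 4 5 104 (init 4 5) :=
  good_of hc4_5_104_1 (gcons gc4_5_104_0 gnil)

theorem gc3_9_68_0 : Good 3 9 68 (init 3 9) :=
  good_of hc3_9_68_0 gnil

theorem gc3_18_17_0 : Good 3 18 17 (init 3 18) :=
  good_of hc3_18_17_0 gnil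

theorem gc3_10_57_0 : Good 3 10 57 (init 3 10) :=
  good_of hc3_10_57_0 gnil

theorem gc3_10_87_0 : Good 3 10 87 sc3_10_87_0 :=
  good_of hc3_10_87_0 gnil

theorem gc3_10_87_1 : Good 3 10 87 sc3_10_87_1 :=
  good_of hc3_10_87_1 (gcons gc3_10_87_0 gnil)

theorem gc3_10_87_2 : Good 3 10 87 (init 3 10) :=
  good_of hc3_10_87_2 (gcons gc3_10_87_1 gnil)

theorem gc3_8_186_0 : Good 3 8 186 sc3_8_186_0 :=
  good_of hc3_8_186_0 gnil

theorem gc3_8_186_1 : Good 3 8 186 sc3_8_186_1 :=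
  good_of hc3_8_186_1 gnil

theorem gc3_8_186_2 : Good 3 8 186 sc3_8_186_2 :=
  good_of hc3_8_186_2 (gcons gc3_8_186_1 gnil)

theorem gc3_8_186_3 : Good 3 8 186 sc3_8_186_3 :=
  good_of hc3_8_186_3 gnil

theorem gc3_8_186_4 : Good 3 8 186 sc3_8_186_4 :=
  good_of hc3_8_186_4 gnil

theorem gc3_8_186_5 : Good 3 8 186 sc3_8_186_5 :=
  good_of hc3_8_186_5 gnil

theorem gc3_8_186_6 : Good 3 8 186 sc3_8_186_6 :=
  good_of hc3_8_186_6 (gcons gc3_8_186_5 gnil)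

theorem gc3_8_186_7 : Good 3 8 186 sc3_8_186_7 :=
  good_of hc3_8_186_7 (gcons gc3_8_186_3 (gcons gc3_8_186_4 (gcons gc3_8_186_6 gnil)))

theorem gc3_8_186_8 : Good 3 8 186 sc3_8_186_8 :=
  good_of hc3_8_186_8 (gcons gc3_8_186_2 (gcons gc3_8_186_7 gnil))

theorem gc3_8_186_9 : Good 3 8 186 sc3_8_186_9 :=
  good_of hc3_8_186_9 (gcons gc3_8_186_8 gnil)

theorem gc3_8_186_10 : Good 3 8 186 sc3_8_186_10 :=
  good_of hc3_8_186_10 (gcons gc3_8_186_0 (gcons gc3_8_186_9 gnil))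

theorem gc3_8_186_11 : Good 3 8 186 sc3_8_186_11 :=
  good_of hc3_8_186_11 (gcons gc3_8_186_10 gnil)

theorem gc3_8_186_12 : Good 3 8 186 (init 3 8) :=
  good_of hc3_8_186_12 (gcons gc3_8_186_11 gnil)

theorem gc3_7_492_0 : Good 3 7 492 sc3_7_492_0 :=
  good_of hc3_7_492_0 gnil

theorem gc3_7_492_1 : Good 3 7 492 sc3_7_492_1 :=
  good_of hc3_7_492_1 (gcons gc3_7_492_0 gnil)

theorem gc3_7_492_2 : Good 3 7 492 sc3_7_492_2 :=
  good_of hc3_7_492_2 (gcons gc3_7_492_1 gnil)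

theorem gc3_7_492_3 : Good 3 7 492 sc3_7_492_3 :=
  good_of hc3_7_492_3 (gcons gc3_7_492_2 gnil)

theorem gc3_7_492_4 : Good 3 7 492 sc3_7_492_4 :=
  good_of hc3_7_492_4 (gcons gc3_7_492_3 gnil)

theorem gc3_7_492_5 : Good 3 7 492 sc3_7_492_5 :=
  good_of hc3_7_492_5 (gcons gc3_7_492_4 gnil)

theorem gc3_7_492_6 : Good 3 7 492 sc3_7_492_6 :=
  good_of hc3_7_492_6 (gcons gc3_7_492_5 gnil)

theorem gc3_7_492_7 : Good 3 7 492 sc3_7_492_7 :=
  good_of hc3_7_492_7 (gcons gc3_7_492_6 gnil)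

theorem gc3_7_492_8 : Good 3 7 492 sc3_7_492_8 :=
  good_of hc3_7_492_8 (gcons gc3_7_492_7 gnil)

theorem gc3_7_492_9 : Good 3 7 492 sc3_7_492_9 :=
  good_of hc3_7_492_9 (gcons gc3_7_492_8 gnil)

theorem gc3_7_492_10 : Good 3 7 492 sc3_7_492_10 :=
  good_of hc3_7_492_10 (gcons gc3_7_492_9 gnil)

theorem gc3_7_492_11 : Good 3 7 492 sc3_7_492_11 :=
  good_of hc3_7_492_11 (gcons gc3_7_492_10 gnil)

theorem gc3_7_492_12 : Good 3 7 492 sc3_7_492_12 :=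
  good_of hc3_7_492_12 (gcons gc3_7_492_11 gnil)

theorem gc3_7_492_13 : Good 3 7 492 sc3_7_492_13 :=
  good_of hc3_7_492_13 (gcons gc3_7_492_12 gnil)

theorem gc3_7_492_14 : Good 3 7 492 (init 3 7) :=
  good_of hc3_7_492_14 (gcons gc3_7_492_13 gnil)

theorem gc3_15_4_0 : Good 3 15 4 (init 3 15) :=
  good_of hc3_15_4_0 gnil

theorem gc7_7_4_0 : Good 7 7 4 (init 7 7) :=
  good_of hc7_7_4_0 gnil

theorem gc3_11_12_0 : Good 3 11 12 (init 3 11) :=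
  good_of hc3_11_12_0 gnil

theorem gc3_21_4_0 : Good 3 21 4 (init 3 21) :=
  good_of hc3_21_4_0 gnil

theorem gc9_9_4_0 : Good 9 9 4 (init 9 9) :=
  good_of hc9_9_4_0 gnil

theorem gc3_13_12_0 : Good 3 13 12 (init 3 13) :=
  good_of hc3_13_12_0 gnil

theorem gc3_27_4_0 : Good 3 27 4 (init 3 27) :=
  good_of hc3_27_4_0 gnil

theorem gc5_15_4_0 : Good 5 15 4 (init 5 15) :=
  good_of hc5_15_4_0 gnil

theorem gc11_11_4_0 : Good 11 11 4 (init 11 11) :=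
  good_of hc11_11_4_0 gnil

theorem gc3_17_12_0 : Good 3 17 12 (init 3 17) :=
  good_of hc3_17_12_0 gnil

theorem gc3_39_4_0 : Good 3 39 4 (init 3 39) :=
  good_of hc3_39_4_0 gnil

theorem gc5_7_20_0 : Good 5 7 20 (init 5 7) :=
  good_of hc5_7_20_0 gnil

theorem gc15_15_4_0 : Good 15 15 4 (init 15 15) :=
  good_of hc15_15_4_0 gnil

theorem gc3_19_12_0 : Good 3 19 12 (init 3 19) :=
  good_of hc3_19_12_0 gnil

theorem gc3_45_4_0 : Good 3 45 4 (init 3 45) :=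
  good_of hc3_45_4_0 gnil

theorem gc5_25_4_0 : Good 5 25 4 (init 5 25) :=
  good_of hc5_25_4_0 gnil

theorem gc7_21_4_0 : Good 7 21 4 (init 7 21) :=
  good_of hc7_21_4_0 gnil

theorem gc17_17_4_0 : Good 17 17 4 (init 17 17) :=
  good_of hc17_17_4_0 gnil

theorem gc3_23_12_0 : Good 3 23 12 (init 3 23) :=
  good_of hc3_23_12_0 gnil

theorem gc3_57_4_0 : Good 3 57 4 (init 3 57) :=
  good_of hc3_57_4_0 gnil

theorem gc5_9_20_0 : Good 5 9 20 (init 5 9) :=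
  good_of hc5_9_20_0 gnil

theorem gc21_21_4_0 : Good 21 21 4 (init 21 21) :=
  good_of hc21_21_4_0 gnil

theorem gc3_25_12_0 : Good 3 25 12 (init 3 25) :=
  good_of hc3_25_12_0 gnil

theorem gc3_63_4_0 : Good 3 63 4 (init 3 63) :=
  good_of hc3_63_4_0 gnil

theorem gc5_35_4_0 : Good 5 35 4 (init 5 35) :=
  good_of hc5_35_4_0 gnil

theorem gc9_27_4_0 : Good 9 27 4 (init 9 27) :=
  good_of hc9_27_4_0 gnil

theorem gc23_23_4_0 : Good 23 23 4 (init 23 23) :=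
  good_of hc23_23_4_0 gnil

theorem gc3_29_12_0 : Good 3 29 12 (init 3 29) :=
  good_of hc3_29_12_0 gnil

theorem gc3_75_4_0 : Good 3 75 4 (init 3 75) :=
  good_of hc3_75_4_0 gnil

theorem gc5_11_20_0 : Good 5 11 20 (init 5 11) :=
  good_of hc5_11_20_0 gnil

theorem gc7_35_4_0 : Good 7 35 4 (init 7 35) :=
  good_of hc7_35_4_0 gnil

theorem gc27_27_4_0 : Good 27 27 4 (init 27 27) :=
  good_of hc27_27_4_0 gnil

theorem gc3_35_12_0 : Good 3 35 12 (init 3 35) :=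
  good_of hc3_35_12_0 gnil

theorem gc3_93_4_0 : Good 3 93 4 (init 3 93) :=
  good_of hc3_93_4_0 gnil

theorem gc5_13_20_0 : Good 5 13 20 (init 5 13) :=
  good_of hc5_13_20_0 gnil

theorem gc9_15_12_0 : Good 9 15 12 (init 9 15) :=
  good_of hc9_15_12_0 gnil

theorem gc33_33_4_0 : Good 33 33 4 (init 33 33) :=
  good_of hc33_33_4_0 gnil

theorem gc3_37_12_0 : Good 3 37 12 (init 3 37) :=
  good_of hc3_37_12_0 gnil

theorem gc3_99_4_0 : Good 3 99 4 (init 3 99) :=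
  good_of hc3_99_4_0 gnil

theorem gc5_55_4_0 : Good 5 55 4 (init 5 55) :=
  good_of hc5_55_4_0 gnil

theorem gc7_9_28_3 : Good 7 9 28 sc7_9_28_3 :=
  good_of hc7_9_28_3 gnil

theorem gc7_9_28_4 : Good 7 9 28 sc7_9_28_4 :=
  good_of hc7_9_28_4 (gcons gmd_7_9_3_9 (gcons gmd_7_9_7_3 (gcons gmd_7_9_7_7 (gcons gc7_9_28_3 gnil))))

theorem gc7_9_28_5 : Good 7 9 28 (init 7 9) :=
  good_of hc7_9_28_5 (gcons gc7_9_28_4 gnil)

theorem gc13_39_4_0 : Good 13 39 4 (init 13 39) :=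
  good_of hc13_39_4_0 gnil

theorem gc35_35_4_0 : Good 35 35 4 (init 35 35) :=
  good_of hc35_35_4_0 gnil

theorem gc3_43_12_0 : Good 3 43 12 (init 3 43) :=
  good_of hc3_43_12_0 gnil

theorem gc3_117_4_0 : Good 3 117 4 (init 3 117) :=
  good_of hc3_117_4_0 gnil

theorem gc5_65_4_0 : Good 5 65 4 (init 5 65) :=
  good_of hc5_65_4_0 gnil

theorem gc15_45_4_0 : Good 15 45 4 (init 15 45) :=
  good_of hc15_45_4_0 gnil

theorem gc41_41_4_0 : Good 41 41 4 (init 41 41) :=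
  good_of hc41_41_4_0 gnil

theorem gc3_47_12_0 : Good 3 47 12 (init 3 47) :=
  good_of hc3_47_12_0 gnil

theorem gc3_129_4_0 : Good 3 129 4 (init 3 129) :=
  good_of hc3_129_4_0 gnil

theorem gc5_17_20_0 : Good 5 17 20 (init 5 17) :=
  good_of hc5_17_20_0 gnil

theorem gc7_11_28_0 : Good 7 11 28 sc7_11_28_0 :=
  good_of hc7_11_28_0 gnil

theorem gc7_11_28_1 : Good 7 11 28 (init 7 11) :=
  good_of hc7_11_28_1 (gcons gc7_11_28_0 gnil)

theorem gc45_45_4_0 : Good 45 45 4 (init 45 45) :=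
  good_of hc45_45_4_0 gnil

theorem gc3_49_12_0 : Good 3 49 12 (init 3 49) :=
  good_of hc3_49_12_0 gnil

theorem gc3_135_4_0 : Good 3 135 4 (init 3 135) :=
  good_of hc3_135_4_0 gnil

theorem gc5_75_4_0 : Good 5 75 4 (init 5 75) :=
  good_of hc5_75_4_0 gnil

theorem gc7_63_4_0 : Good 7 63 4 (init 7 63) :=
  good_of hc7_63_4_0 gnil

theorem gc9_21_12_0 : Good 9 21 12 (init 9 21) :=
  good_of hc9_21_12_0 gnil

theorem gc11_55_4_0 : Good 11 55 4 (init 11 55) :=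
  good_of hc11_55_4_0 gnil

theorem gc17_51_4_0 : Good 17 51 4 (init 17 51) :=
  good_of hc17_51_4_0 gnil

theorem gc47_47_4_0 : Good 47 47 4 (init 47 47) :=
  good_of hc47_47_4_0 gnil

theorem gc3_53_12_0 : Good 3 53 12 (init 3 53) :=
  good_of hc3_53_12_0 gnil

theorem gc3_147_4_0 : Good 3 147 4 (init 3 147) :=
  good_of hc3_147_4_0 gnil

theorem gc5_19_20_0 : Good 5 19 20 (init 5 19) :=
  good_of hc5_19_20_0 gnil

theorem gc9_63_4_0 : Good 9 63 4 (init 9 63) :=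
  good_of hc9_63_4_0 gnil

theorem gc51_51_4_0 : Good 51 51 4 (init 51 51) :=
  good_of hc51_51_4_0 gnil

theorem gc6_10_6_2 : Good 6 10 6 (init 6 10) :=
  good_of hc6_10_6_2 (gcons gmd_6_10_5_5 (gcons gmd_6_10_10_5 gnil))

/-- the searched triples: face size, valency, number of vertices -/
def srch : List (ℕ × ℕ × ℕ) := [
  (3, 7, 24), (3, 8, 12), (3, 9, 8), (3, 10, 6), (3, 12, 4), (3, 18, 2), (4, 5, 16), (4, 6, 8),
  (4, 8, 4), (4, 12, 2), (5, 5, 8), (5, 10, 2), (6, 6, 4), (8, 8, 2), (3, 7, 36), (3, 8, 18),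
  (3, 9, 12), (3, 10, 9), (3, 12, 6), (3, 18, 3), (4, 5, 24), (4, 6, 12), (4, 8, 6), (4, 12, 3),
  (5, 5, 12), (5, 10, 3), (6, 6, 6), (3, 7, 60), (3, 8, 30), (3, 9, 20), (3, 10, 15),
  (3, 12, 10), (3, 18, 5), (4, 5, 40), (4, 6, 20), (4, 8, 10), (4, 12, 5), (5, 5, 20),
  (5, 10, 5), (6, 6, 10), (3, 7, 84), (3, 8, 42), (3, 9, 28), (3, 10, 21), (3, 12, 14),
  (4, 6, 28), (4, 12, 7), (6, 6, 14), (3, 10, 33), (3, 7, 156), (4, 5, 104), (3, 9, 68),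
  (3, 18, 17), (3, 10, 57), (3, 10, 87), (3, 8, 186), (3, 7, 492), (3, 15, 4), (7, 7, 4),
  (3, 11, 12), (3, 21, 4), (9, 9, 4), (3, 13, 12), (3, 27, 4), (5, 15, 4), (11, 11, 4),
  (3, 17, 12), (3, 39, 4), (5, 7, 20), (15, 15, 4), (3, 19, 12), (3, 45, 4), (5, 25, 4),
  (7, 21, 4), (17, 17, 4), (3, 23, 12), (3, 57, 4), (5, 9, 20), (21, 21, 4), (3, 25, 12),
  (3, 63, 4), (5, 35, 4), (9, 27, 4), (23, 23, 4), (3, 29, 12), (3, 75, 4), (5, 11, 20),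
  (7, 35, 4), (27, 27, 4), (3, 35, 12), (3, 93, 4), (5, 13, 20), (9, 15, 12), (33, 33, 4),
  (3, 37, 12), (3, 99, 4), (5, 55, 4), (7, 9, 28), (13, 39, 4), (35, 35, 4), (3, 43, 12),
  (3, 117, 4), (5, 65, 4), (15, 45, 4), (41, 41, 4), (3, 47, 12), (3, 129, 4), (5, 17, 20),
  (7, 11, 28), (45, 45, 4), (3, 49, 12), (3, 135, 4), (5, 75, 4), (7, 63, 4), (9, 21, 12),
  (11, 55, 4), (17, 51, 4), (47, 47, 4), (3, 53, 12), (3, 147, 4), (5, 19, 20), (9, 63, 4),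
  (51, 51, 4), (6, 10, 6)]

theorem srch_good : srch.Forall fun x => Good x.1 x.2.1 x.2.2 (init x.1 x.2.1) := ⟨
  gc3_7_24_0, gc3_8_12_0, gc3_9_8_0, gc3_10_6_2, gc3_12_4_0, gc3_18_2_0, gc4_5_16_1, gc4_6_8_0,
  gc4_8_4_0, gc4_12_2_0, gc5_5_8_0, gc5_10_2_0, gc6_6_4_0, gc8_8_2_0, gc3_7_36_1, gc3_8_18_0,
  gc3_9_12_0, gc3_10_9_0, gc3_12_6_0, gc3_18_3_0, gc4_5_24_0, gc4_6_12_0, gc4_8_6_0, gc4_12_3_0,
  gc5_5_12_0, gc5_10_3_0, gc6_6_6_0, gc3_7_60_0, gc3_8_30_0, gc3_9_20_0, gc3_10_15_0,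
  gc3_12_10_0, gc3_18_5_0, gc4_5_40_0, gc4_6_20_2, gc4_8_10_0, gc4_12_5_0, gc5_5_20_0,
  gc5_10_5_0, gc6_6_10_1, gc3_7_84_0, gc3_8_42_0, gc3_9_28_1, gc3_10_21_0, gc3_12_14_0,
  gc4_6_28_1, gc4_12_7_0, gc6_6_14_0, gc3_10_33_0, gc3_7_156_2, gc4_5_104_1, gc3_9_68_0,
  gc3_18_17_0, gc3_10_57_0, gc3_10_87_2, gc3_8_186_12, gc3_7_492_14, gc3_15_4_0, gc7_7_4_0,
  gc3_11_12_0, gc3_21_4_0, gc9_9_4_0, gc3_13_12_0, gc3_27_4_0, gc5_15_4_0, gc11_11_4_0,
  gc3_17_12_0, gc3_39_4_0, gc5_7_20_0, gc15_15_4_0, gc3_19_12_0, gc3_45_4_0, gc5_25_4_0,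
  gc7_21_4_0, gc17_17_4_0, gc3_23_12_0, gc3_57_4_0, gc5_9_20_0, gc21_21_4_0, gc3_25_12_0,
  gc3_63_4_0, gc5_35_4_0, gc9_27_4_0, gc23_23_4_0, gc3_29_12_0, gc3_75_4_0, gc5_11_20_0,
  gc7_35_4_0, gc27_27_4_0, gc3_35_12_0, gc3_93_4_0, gc5_13_20_0, gc9_15_12_0, gc33_33_4_0,
  gc3_37_12_0, gc3_99_4_0, gc5_55_4_0, gc7_9_28_5, gc13_39_4_0, gc35_35_4_0, gc3_43_12_0,
  gc3_117_4_0, gc5_65_4_0, gc15_45_4_0, gc41_41_4_0, gc3_47_12_0, gc3_129_4_0, gc5_17_20_0,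
  gc7_11_28_1, gc45_45_4_0, gc3_49_12_0, gc3_135_4_0, gc5_75_4_0, gc7_63_4_0, gc9_21_12_0,
  gc11_55_4_0, gc17_51_4_0, gc47_47_4_0, gc3_53_12_0, gc3_147_4_0, gc5_19_20_0, gc9_63_4_0,
  gc51_51_4_0, gc6_10_6_2⟩

end Pool.Agent.MP_912f41_co.Eng

namespace Pool.Agent.MP_912f41_co

open Subgroup Eng

variable {G : Type} [Group G] {a b c : G}

theorem srch_bd : ∀ x ∈ srch, 4 * x.2.1 * (x.2.2 + 1) ≤ 2 ^ 14 := by decide +kernel

theorem eng [Finite G] (h : NM a b c) (hx : (orderOf (a * b), orderOf (b * c),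
    Nat.card G / (2 * orderOf (b * c))) ∈ srch) : Goal a b c := by
  have H : Hy a b c _ _ (Nat.card G / (2 * orderOf (b * c))) := ⟨h, rfl, rfl, (Nat.mul_div_cancel'
    ((Nat.mul_dvd_mul_left 2 (Nat.dvd_lcm_right _ _)).trans h.two_L_dvd)).symm, srch_bd _ hx⟩
  exact GoodAt.init H (List.forall_iff_forall_mem.1 srch_good _ hx G a b c H)

/-- type and order, or the dual ones, have been searched -/
def Sr (m n k : ℕ) : Prop := (m, n, k / (2 * n)) ∈ srch ∨ (n, m, k / (2 * m)) ∈ srch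

instance (m n k : ℕ) : Decidable (Sr m n k) := by unfold Sr; infer_instance

/-- the conclusion of the classification -/
def Res (p : ℕ) (a b c : G) : Prop := ∃ τ : Entry, τ.ok p ∧ (τ.Model a b c ∨ τ.Model c b a)

theorem Res.dual {p : ℕ} (h : Res p c b a) : Res p a b c := h.imp fun _ k => ⟨k.1, k.2.symm⟩

theorem goal_res (h : NM a b c) {p : ℕ} (he : euler a b c = -2 * p) (hG : Goal a b c) :
    Res p a b c := by
  obtain ⟨i, hi⟩ := hG
  have := (ex_model i h.gen hi).2.2.2.2.2.2.2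
  exact ⟨.exc i, show exP i = p by omega, Or.inl hi⟩

theorem eng2 [Finite G] (h : NM a b c) {p : ℕ} (he : euler a b c = -2 * p)
    (hs : Sr (orderOf (a * b)) (orderOf (b * c)) (Nat.card G)) : Res p a b c := by
  rcases hs with hs | hs
  · exact goal_res h he (eng h hs)
  · refine (goal_res h.dual (euler_dual a b c ▸ he) (eng h.dual ?_)).dual
    rwa [ord_dual h.a2 h.b2, ord_dual h.b2 h.c2]

/-- no small proper divisor -/
def Pr (p : ℕ) : Prop := 2 ≤ p ∧ ∀ d < 10, 2 ≤ d → d ∣ p → d = p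

instance (p : ℕ) : Decidable (Pr p) := by unfold Pr; infer_instance

theorem pr_of {p : ℕ} (hp : p.Prime) : Pr p :=
  ⟨hp.two_le, fun _ _ h hd => ((Nat.dvd_prime hp).1 hd).resolve_left (by omega)⟩

/-- all small primes that pass the sieve have been searched -/
def Tb (m n s : ℕ) : Prop := ∀ p < 84, Pr p →
  (p = 2 ∨ p ∣ 2 * Nat.lcm m n * s ∨ Sv p (2 * Nat.lcm m n * s)) → Sr m n (2 * Nat.lcm m n * (p * s))

instance (m n s : ℕ) : Decidable (Tb m n s) := by unfold Tb; infer_instance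

theorem finB : ∀ m < 19, ∀ n < 19, ∀ s < 5, 0 < m →
    s * (m * n) = s * (2 * m + 2 * n) + 4 * Nat.gcd m n → Tb m n s := by decide +kernel

theorem finC : ∀ m < 74, ∀ n < 74, ∀ p, p = ((2 * m + 1) * (2 * n + 1) - (2 * (2 * m + 1) +
    2 * (2 * n + 1))) / Nat.gcd (2 * m + 1) (2 * n + 1) → p < 48 → Pr p →
      Sr (2 * m + 1) (2 * n + 1) (2 * Nat.lcm (2 * m + 1) (2 * n + 1) * 4) := by
  simp only [forall_eq]
  decide +kernel

theorem arithB {m n s : ℕ} (m0 : 0 < m) (hmn : m ≤ n)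
    (h : s * (m * n) = s * (2 * m + 2 * n) + 4 * Nat.gcd m n) : n < 19 ∧ s < 5 := by
  have g0 := Nat.gcd_pos_of_pos_left n m0
  have gm := Nat.gcd_le_left n m0
  have s0 : 0 < s := Nat.pos_of_ne_zero (by rintro rfl; omega)
  obtain ⟨d, hd⟩ : ∃ d, m * n = 2 * m + 2 * n + d :=
    Nat.exists_eq_add_of_le (Nat.le_of_mul_le_mul_left (by omega) s0)
  have h1 : s * d = 4 * Nat.gcd m n := by
    rw [hd, mul_add s] at h
    omega
  obtain ⟨e, he⟩ : Nat.gcd m n ∣ d := (Nat.dvd_add_right (Dvd.dvd.add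
    ((Nat.gcd_dvd_left m n).mul_left 2) ((Nat.gcd_dvd_right m n).mul_left 2))).1
    (hd ▸ (Nat.gcd_dvd_left m n).mul_right n)
  have h2 : s * e = 4 := Nat.eq_of_mul_eq_mul_right g0 (by rw [← h1, he]; ring)
  have s4 := Nat.le_of_dvd (by norm_num) (Dvd.intro e h2)
  have d4 : d ≤ s * d := Nat.le_mul_of_pos_left d s0
  have m3 : 3 ≤ m := by
    by_contra h3
    have : m * n ≤ 2 * n := Nat.mul_le_mul_right n (by omega)
    omega
  refine ⟨?_, by omega⟩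
  by_contra h3
  obtain ⟨m', rfl⟩ := Nat.exists_eq_add_of_le m3
  have : m' * 19 ≤ m' * n := Nat.mul_le_mul_left _ (by omega)
  rw [add_mul] at hd
  omega

theorem arithC {m n g p : ℕ} (gm : g ≤ m) (hmn : m ≤ n) (p47 : p ≤ 47)
    (h : m * n = 2 * m + 2 * n + g * p) (m0 : 0 < m) : n < 148 := by
  have h1 : g * p ≤ m * 47 := Nat.mul_le_mul gm p47
  have m3 : 3 ≤ m := by
    by_contra h3
    have : m * n ≤ 2 * n := Nat.mul_le_mul_right n (by omega)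
    omega
  by_contra h3
  obtain ⟨m', rfl⟩ := Nat.exists_eq_add_of_le m3
  have : m' * 148 ≤ m' * n := Nat.mul_le_mul_left _ (by omega)
  rw [add_mul] at h
  omega

theorem caseB [Finite G] (h : NM a b c) {p s : ℕ} (hp : p.Prime) (h83 : p < 84)
    (hc : Nat.card G = 2 * LL a b c * (p * s))
    (e : s * (orderOf (a * b) * orderOf (b * c)) = s * (2 * orderOf (a * b) + 2 * orderOf (b * c)) +
      4 * Nat.gcd (orderOf (a * b)) (orderOf (b * c))) :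
    Sr (orderOf (a * b)) (orderOf (b * c)) (Nat.card G) := by
  obtain ⟨h1, h2, h3⟩ : orderOf (a * b) < 19 ∧ orderOf (b * c) < 19 ∧ s < 5 := by
    rcases le_total (orderOf (a * b)) (orderOf (b * c)) with l | l
    · have := arithB (orderOf_pos _) l e
      omega
    · have := arithB (s := s) (orderOf_pos _) l
        (by rw [Nat.gcd_comm, mul_comm (orderOf (b * c)), e]; ring)
      omega
  rw [hc]
  refine finB _ h1 _ h2 s h3 (orderOf_pos _) e p h83 (pr_of hp) ?_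
  by_cases p2 : p = 2
  · exact Or.inl p2
  by_cases pk : p ∣ 2 * LL a b c * s
  · exact Or.inr (Or.inl pk)
  exact Or.inr (Or.inr (h.toWM.sieve hp (hp.odd_of_ne_two p2) (by rw [hc, LL]; ring) pk
    ⟨_, mul_assoc _ _ _⟩ (((Nat.dvd_lcm_left _ _).mul_left 2).mul_right s)
    (((Nat.dvd_lcm_right _ _).mul_left 2).mul_right s)))

theorem caseC {m n p : ℕ} (hm : Odd m) (hn : Odd n) (hp : p.Prime) (p47 : p ≤ 47)
    (e : m * n = 2 * m + 2 * n + Nat.gcd m n * p) : Sr m n (2 * Nat.lcm m n * 4) := by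
  obtain ⟨h1, h2⟩ : m < 148 ∧ n < 148 := by
    rcases le_total m n with l | l
    · have := arithC (Nat.gcd_le_left n hm.pos) l p47 e hm.pos
      omega
    · have := arithC (Nat.gcd_le_right m hn.pos) l p47 (by rw [mul_comm n, e]; ring) hn.pos
      omega
  obtain ⟨m, rfl⟩ := hm
  obtain ⟨n, rfl⟩ := hn
  refine finC m (by omega) n (by omega) p ?_ (by omega) (pr_of hp)
  rw [e, Nat.add_sub_cancel_left, Nat.mul_div_cancel_left _ (Nat.gcd_pos_of_pos_left _ (by omega))]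

theorem UD.exc' {U : Subgroup G} [U.Normal] {j l : ℕ} [Finite G] [IsCyclic U] (h : UD a b c U j l)
    {t p : ℕ} (hp : p.Prime) (pt : ¬ p ∣ t) (ht : Nat.card G = 2 * LL a b c * t) (e : EF a b c t p)
    (hE : Exc (QuotientGroup.mk' U a) (QuotientGroup.mk' U b) (QuotientGroup.mk' U c)) :
    Sr (orderOf (a * b)) (orderOf (b * c)) (Nat.card G) := by
  obtain ⟨hm, hn, hQ, hg⟩ := h.facts ht
  obtain ⟨h4, hE⟩ := hE
  obtain rfl : t = 2 := Nat.eq_of_mul_eq_mul_left (Nat.mul_pos two_pos (LL_pos _ _ _))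
    (by rw [← hQ, h4]; ring)
  obtain ⟨p', hp'⟩ := hp.odd_of_ne_two (by rintro rfl; exact pt dvd_rfl)
  obtain ⟨j', hj⟩ := h.jo
  obtain ⟨l', hl⟩ := h.lo
  unfold EF at e
  rw [hg, hm, hn] at e
  rcases hE with ⟨e1, e2⟩ | ⟨e1, e2⟩ | ⟨e1, e2⟩ | ⟨e1, e2⟩ | ⟨e1, e2, e3⟩ <;> rw [e1, e2] at e
  iterate 4
    rw [hj, hl, hp'] at e
    norm_num at e
    ring_nf at e
    omega
  rw [← map_mul, ← map_mul, ← map_pow, ← map_pow] at e3
  obtain ⟨z, hz, ez⟩ := (QuotientGroup.mk'_eq_mk' U).1 e3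
  obtain rfl : j = 1 := by
    rw [← h.hj, card_eq_one, eq_bot_iff_forall]
    intro w hw
    refine eq_one_of_odd (h.ho w hw.2) (h.nm.sq_of_inv (cyc_comm (mem_zpowers _) hw.1)
      (h.nm.odd_pow_comm U (k := 3) (by decide) hw.2 ?_) (dih_inv_r h.nm.a2 h.nm.b2 hw.1))
    rw [← ez, mul_assoc, cyc_comm hz hw.2, ← mul_assoc, cyc_comm (pow_mem (mem_zpowers _) 5) hw.1,
      mul_assoc]
  obtain rfl : l = 1 := by
    rw [← h.hl, card_eq_one, eq_bot_iff_forall]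
    intro w hw
    refine eq_one_of_odd (h.ho w hw.2) (h.nm.sq_of_inv (h.nm.odd_pow_comm U (k := 5) (by decide)
      hw.2 ?_) (cyc_comm (mem_zpowers _) hw.1) (dih_inv_l h.nm.b2 h.nm.c2 hw.1))
    rw [eq_mul_inv_of_mul_eq ez, mul_assoc, cyc_comm (inv_mem hz) hw.2, ← mul_assoc,
      cyc_comm (pow_mem (mem_zpowers _) 3) hw.1, mul_assoc]
  rw [ht, LL, hm, hn, e1, e2]
  decide +kernel

theorem classify' [Finite G] (h : NM a b c) {p : ℕ} (hp : p.Prime)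
    (he : euler a b c = -2 * p) : Res p a b c := by
  have fam : (∃ τ : Fam, τ.ok p ∧ (τ.Model a b c ∨ τ.Model c b a)) → Res p a b c :=
    fun ⟨τ, k⟩ => ⟨.fam τ, k⟩
  by_cases h83 : 83 < p
  · exact fam (classify h hp h83 he)
  obtain ⟨t, ht⟩ := h.two_L_dvd
  have e : EF a b c t p := (h.euler_iff ht p).1 he
  by_cases pt : p ∣ t
  · obtain ⟨s, rfl⟩ := pt
    refine eng2 h he (caseB h hp (by omega) ht (Nat.eq_of_mul_eq_mul_left hp.pos ?_))
    unfold EF at e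
    linarith
  obtain ⟨m, hm⟩ := Nat.gcd_dvd_left (orderOf (a * b)) (orderOf (b * c))
  obtain ⟨n, hn⟩ := Nat.gcd_dvd_right (orderOf (a * b)) (orderOf (b * c))
  have g0 := Nat.gcd_pos_of_pos_left (orderOf (b * c)) (orderOf_pos (a * b))
  have e1 : t * (orderOf (a * b) * n) = t * (2 * m + 2 * n) + 4 * p := by
    refine Nat.eq_of_mul_eq_mul_left g0 ?_
    unfold EF at e
    generalize Nat.gcd (orderOf (a * b)) (orderOf (b * c)) = g at *
    rw [hn, hm] at e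
    rw [hm]
    linarith
  have t4' : t ∣ 2 ^ 2 := ((Nat.Prime.coprime_iff_not_dvd hp).2 pt).symm.dvd_of_dvd_mul_right
    ((Nat.dvd_add_right (Dvd.intro _ rfl)).1 (e1 ▸ Dvd.intro _ rfl))
  by_cases t4 : t = 4
  · subst t4
    have h1 : Odd (orderOf (a * b) * n) := by
      obtain ⟨i, hi⟩ := hp.odd_of_ne_two (by rintro rfl; exact pt ⟨2, rfl⟩)
      exact ⟨m + n + i, by omega⟩
    have mo := (Nat.odd_mul.1 h1).1
    have no : Odd (orderOf (b * c)) := by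
      rw [hn]
      exact (mo.of_dvd_nat (Nat.gcd_dvd_left _ _)).mul (Nat.odd_mul.1 h1).2
    have e2 : orderOf (a * b) * orderOf (b * c) = 2 * orderOf (a * b) +
        2 * orderOf (b * c) + Nat.gcd (orderOf (a * b)) (orderOf (b * c)) * p := by
      unfold EF at e
      linarith
    by_cases h47 : 47 < p
    · exact (t4 h mo no ht hp h47 e2).elim
    · exact eng2 h he (ht ▸ caseC mo no hp (by omega) e2)
  have t2 : t ∣ 2 := by
    obtain ⟨i, hi, rfl⟩ := (Nat.dvd_prime_pow Nat.prime_two).1 t4'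
    interval_cases i <;> simp at t4 ⊢
  obtain ⟨U, _, _, j, l, h1, h2, h3, h4, h5, h6, h7, h8, h9⟩ := h.red ht t2
  have u : UD a b c U j l := ⟨h, h1, h2, h3, h4, h5, h6, h7, h8, h9⟩
  have ht' : Nat.card G = 2 * LL c b a * t := h.LL_dual ▸ ht
  have d4 : Nat.card (G ⧸ U) ∣
      4 * LL (QuotientGroup.mk' U a) (QuotientGroup.mk' U b) (QuotientGroup.mk' U c) :=
    quot_dvd (ht ▸ (Nat.mul_dvd_mul_left _ t2).trans ⟨1, by ring⟩) U
  by_cases hs : Group.IsSolvable (G ⧸ U)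
  · rcases solv1 h8 h7 d4 with hP | hP
    · exact fam ((u.half ht t2 e hP).imp fun _ k => ⟨k.1, Or.inl k.2⟩)
    · exact fam ((u.dual.half ht' t2 (e.dual h.toWM) hP).imp fun _ k => ⟨k.1, Or.inr k.2⟩)
  · rcases lift h8.toWM h7 d4 hs with hE | hE
    · exact eng2 h he (u.exc' hp pt ht e hE)
    · exact (eng2 h.dual (euler_dual a b c ▸ he) (u.dual.exc' hp pt ht' (e.dual h.toWM) hE)).dual

theorem Fam.ok.four {p : ℕ} {τ : Fam} (h : τ.ok p) (hp : p.Prime) : 4 ≤ p := by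
  have p2 := hp.two_le
  obtain ⟨⟨j, hj⟩, e⟩ := (Fam.ok_iff p τ).1 h
  have g4 : τ.g = 2 ∨ τ.g = 4 := by cases τ <;> simp [Fam.g]
  by_contra h4
  rcases hl : τ.l with _ | l <;> rw [hj, hl] at e
  · omega
  · rcases g4 with g4 | g4 <;> rw [g4] at e <;> ring_nf at e
    · obtain rfl : j = 0 := by omega
      omega
    · omega

theorem Entry.sound {p : ℕ} {τ : Entry} (h : τ.ok p) (hp : p.Prime)
    (gen : closure {a, b, c} = ⊤) (hM : τ.Model a b c) : NM a b c ∧ euler a b c = -2 * p := by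
  rcases τ with τ | i
  · exact Pool.Agent.MP_912f41_co.sound h hp (Fam.ok.four h hp) gen hM
  · obtain ⟨-, h1, -, -, -, -, -, h2⟩ := ex_model i gen hM
    exact ⟨h1, (show exP i = p from h) ▸ h2⟩

theorem ex_uniq : (∀ i j, exM j = exM i → exN j = exN i → exPe j = exPe i → exZ j = exZ i → j = i) ∧
    (∀ i j, exM j = exN i → exN j = exM i → j = i) ∧
    ∀ i, exT i = 2 → ¬ 4 ∣ exM i ∧ ¬ 4 ∣ exN i := by decide +kernel

theorem fam_exc {p : ℕ} {τ : Fam} (h : τ.ok p) (hp : p.Prime) (gen : closure {a, b, c} = ⊤)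
    (hM : τ.Model a b c) (i : Fin 14) :
    ¬ ((Entry.exc i).Model a b c ∨ (Entry.exc i).Model c b a) := by
  obtain ⟨jo, lo, co⟩ := h.good hp (h.four hp)
  obtain ⟨_, nm, hm, -, hc⟩ := model τ jo lo co gen hM
  have d : 4 ∣ orderOf (a * b) := by
    rw [hm]
    cases τ <;> simp only [Fam.g] <;> omega
  have L0 := Nat.mul_pos two_pos (LL_pos a b c)
  rintro (h1 | h1)
  · obtain ⟨-, -, h2, -, -, -, h3, -⟩ := ex_model i gen h1
    exact (ex_uniq.2.2 i (Nat.eq_of_mul_eq_mul_left L0 (h3.symm.trans hc))).1 (h2 ▸ d)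
  · obtain ⟨-, -, -, h2, -, -, h3, -⟩ := ex_model i nm.dual.gen h1
    rw [nm.LL_dual] at h3
    rw [ord_dual nm.a2 nm.b2] at h2
    exact (ex_uniq.2.2 i (Nat.eq_of_mul_eq_mul_left L0 (h3.symm.trans hc))).2 (h2 ▸ d)

theorem Entry.unique {p : ℕ} {τ σ : Entry} (h : τ.ok p) (h' : σ.ok p) (hp : p.Prime)
    (gen : closure {a, b, c} = ⊤) (hM : τ.Model a b c) (hM' : σ.Model a b c ∨ σ.Model c b a) :
    σ = τ := by
  have nm := (Entry.sound h hp gen hM).1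
  rcases τ with τ | i <;> rcases σ with σ | j
  · have := Pool.Agent.MP_912f41_co.unique h h' hp (Fam.ok.four h hp) gen hM
    rw [this.1 (hM'.resolve_right this.2)]
  · exact (fam_exc h hp gen hM j hM').elim
  · rcases hM' with hM' | hM'
    · exact (fam_exc h' hp gen hM' i (Or.inl hM)).elim
    · exact (fam_exc h' hp nm.dual.gen hM' i (Or.inr hM)).elim
  · obtain ⟨-, -, h1, h2, h3, h4, -⟩ := ex_model i gen hM
    rcases hM' with hM' | hM'
    · obtain ⟨-, -, k1, k2, k3, k4, -⟩ := ex_model j gen hM'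
      rw [ex_uniq.1 i j (k1.symm.trans h1) (k2.symm.trans h2) (k3.symm.trans h3) (k4.symm.trans h4)]
    · obtain ⟨-, -, k1, k2, -⟩ := ex_model j nm.dual.gen hM'
      rw [ord_dual nm.b2 nm.c2] at k1
      rw [ord_dual nm.a2 nm.b2] at k2
      rw [ex_uniq.2.1 i j (k1.symm.trans h2) (k2.symm.trans h1)]

end Pool.Agent.MP_912f41_co
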