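import Pool.Agent.MP_912f41_co.TI
import Pool.Agent.MP_912f41_co.All.Chk
import Pool.Agent.MP_912f41_co.Model
import Pool.Agent.MP_912f41_co.All.Ex

-- ======== part 0: formerly Pool.Agent.MP_912f41_co.All.Pos
section MrgPart0

/-! Positions and tables of the checker. -/

set_option autoImplicit false

namespace Pool.Agent.MP_912f41_co.Eng

open Subgroup

theorem an_iff {x y : Bool} : an x y = true ↔ x = true ∧ y = true := by cases x <;> simp [an]

theorem get_lor (T U p : ℕ) : get (T ||| U) p = get T p ||| get U p := by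
  show ((T ||| U) >>> (14 * p)) &&& 16383 = (T >>> (14 * p)) &&& 16383 ||| (U >>> (14 * p)) &&& 16383
  rw [Nat.shiftRight_or_distrib, Nat.and_or_distrib_right]

theorem get_shl {x : ℕ} (hx : x < 2 ^ 14) (p q : ℕ) :
    get (x <<< (14 * p)) q = if q = p then x else 0 := by
  show ((x <<< (14 * p)) >>> (14 * q)) &&& (2 ^ 14 - 1) = _
  refine Nat.eq_of_testBit_eq fun i => ?_
  rw [Nat.testBit_and, Nat.testBit_shiftRight, Nat.testBit_shiftLeft, Nat.testBit_two_pow_sub_one]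
  have k : ∀ j, 14 ≤ j → x.testBit j = false := fun j hj =>
    Nat.testBit_lt_two_pow (hx.trans_le (Nat.pow_le_pow_right two_pos hj))
  by_cases hi : i < 14
  · split_ifs with h
    · simp [h, hi]
    · by_cases h1 : 14 * p ≤ 14 * q + i
      · simp [k (14 * q + i - 14 * p) (by omega)]
      · simp [h1]
  · split_ifs <;> simp [hi, k i (by omega)]

theorem get_put2 {x : ℕ} (hx : x < 2 ^ 14) (n T p q : ℕ) : get (put2 n T p x) q = get T q ∨
    (get T q = 0 ∧ (q = p ∨ q = p + n) ∧ get (put2 n T p x) q = x) := by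
  unfold put2
  cases h : Nat.land (Nat.shiftRight T (Nat.mul 14 p)) (dbl n 16383) with
  | succ k => exact Or.inl rfl
  | zero =>
    change T >>> (14 * p) &&& (16383 ||| 16383 <<< (14 * n)) = 0 at h
    rw [Nat.and_or_distrib_left, Nat.or_eq_zero_iff] at h
    have h2 : get T (p + n) = 0 := by
      have := congrArg (· >>> (14 * n)) h.2
      simp only [Nat.shiftRight_and_distrib, Nat.shiftLeft_shiftRight, Nat.zero_shiftRight,
        ← Nat.shiftRight_add, ← mul_add] at this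
      exact this
    show get (T ||| (x ||| x <<< (14 * n)) <<< (14 * p)) q = _ ∨
      (_ ∧ _ ∧ get (T ||| (x ||| x <<< (14 * n)) <<< (14 * p)) q = x)
    rw [Nat.shiftLeft_or_distrib, ← Nat.shiftLeft_add, ← mul_add, get_lor, get_lor, get_shl hx,
      get_shl hx, add_comm n p]
    by_cases e1 : q = p
    · have : get T q = 0 := e1 ▸ h.1
      exact Or.inr ⟨this, Or.inl e1, by rw [this, if_pos e1]; split_ifs <;> simp⟩
    by_cases e2 : q = p + n
    · have : get T q = 0 := e2 ▸ h2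
      exact Or.inr ⟨this, Or.inr e2, by rw [this, if_neg e1, if_pos e2]; simp⟩
    · exact Or.inl (by rw [if_neg e1, if_neg e2]; simp)

theorem get_zero (p : ℕ) : get 0 p = 0 := by
  show (0 >>> (14 * p)) &&& 16383 = 0
  simp

theorem bit_or (K v u : ℕ) : (Nat.lor K (Nat.shiftLeft 1 v)).testBit u = true ↔
    K.testBit u = true ∨ u = v := by
  show (K ||| 1 <<< v).testBit u = true ↔ _
  rw [Nat.testBit_or, Nat.one_shiftLeft, Nat.testBit_two_pow]
  rw [Bool.or_eq_true, decide_eq_true_eq, eq_comm (a := v)]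

theorem covers_ok {K V v : ℕ} (h : covers K V = true) (h1 : 1 ≤ v) (h2 : v ≤ V) :
    K.testBit v = true := by
  have := congrArg (·.testBit v) (Nat.eq_of_beq_eq_true h)
  change ((K ||| 2 ^ 0) &&& (2 ^ (V + 1) - 1)).testBit v = _ at this
  rw [Nat.testBit_and, Nat.testBit_or, Nat.testBit_two_pow, Nat.testBit_two_pow_sub_one] at this
  simpa [show v < V + 1 by omega, show 0 ≠ v by omega] using this

variable {n p q j : ℕ}

/-- normalised positions -/
def Nr (n p : ℕ) : Prop := p % (2 * n) < n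

def Val (n V p : ℕ) : Prop := 1 ≤ vx n p ∧ vx n p ≤ V

theorem vx_eq (n p : ℕ) : vx n p = p / (2 * n) / 2 := by
  rw [Nat.div_div_eq_div_mul, show 2 * n * 2 = 4 * n by ring]
  rfl

theorem dm {b i : ℕ} (h : i < 2 * n) :
    (b * (2 * n) + i) / (2 * n) = b ∧ (b * (2 * n) + i) % (2 * n) = i := by
  rw [add_comm, Nat.add_mul_div_right _ _ (by omega), Nat.add_mul_mod_self_right,
    Nat.div_eq_of_lt h, Nat.mod_eq_of_lt h, zero_add]
  exact ⟨rfl, rfl⟩

theorem dm_add (h : p % (2 * n) + j < 2 * n) :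
    (p + j) / (2 * n) = p / (2 * n) ∧ (p + j) % (2 * n) = p % (2 * n) + j := by
  have := dm (b := p / (2 * n)) h
  rwa [← add_assoc, Nat.div_add_mod'] at this

theorem mod_mod (n p : ℕ) : p % (2 * n) % n = p % n := Nat.mod_mod_of_dvd _ ⟨2, by ring⟩

theorem nrm_eq (n p : ℕ) : nrm n p = p / (2 * n) * (2 * n) + p % n := by
  have := Nat.div_add_mod' p (2 * n)
  show p - p % (2 * n) + p % n = _
  omega

theorem dm_nrm (n0 : 0 < n) (p : ℕ) :
    nrm n p / (2 * n) = p / (2 * n) ∧ nrm n p % (2 * n) = p % n := by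
  rw [nrm_eq]
  exact dm (by have := Nat.mod_lt p n0; omega)

theorem dm_cpos (n0 : 0 < n) (p : ℕ) : cpos n p / (2 * n) = (p / (2 * n)) ^^^ 1 ∧
    cpos n p % (2 * n) = (2 * n - p % (2 * n)) % n :=
  dm ((Nat.mod_lt _ n0).trans_le (by omega))

theorem dm_dec (n0 : 0 < n) (x : ℕ) : dec n x / (2 * n) = x / n ∧ dec n x % (2 * n) = x % n := by
  have e : dec n x = x / n * (2 * n) + x % n := by
    have := Nat.div_add_mod' x n
    show x + x / n * n = _
    rw [mul_left_comm]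
    omega
  rw [e]
  exact dm (by have := Nat.mod_lt x n0; omega)

theorem nr_dec (n0 : 0 < n) (x : ℕ) : Nr n (dec n x) := (dm_dec n0 x).2.trans_lt (Nat.mod_lt x n0)

theorem nr_nrm (n0 : 0 < n) (p : ℕ) : Nr n (nrm n p) := (dm_nrm n0 p).2.trans_lt (Nat.mod_lt p n0)

theorem nr_cpos (n0 : 0 < n) (p : ℕ) : Nr n (cpos n p) := (dm_cpos n0 p).2.trans_lt (Nat.mod_lt _ n0)

theorem Nr.nrm (h : Nr n p) : nrm n p = p := by
  rw [nrm_eq, ← mod_mod, Nat.mod_eq_of_lt h, Nat.div_add_mod']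

theorem xor_cases (b : ℕ) : (b % 2 = 0 ∧ b ^^^ 1 = b + 1) ∨ (b % 2 = 1 ∧ (b ^^^ 1) + 1 = b) := by
  rcases Nat.even_or_odd b with h | h
  · exact Or.inl ⟨Nat.even_iff.1 h, Nat.xor_one_of_even h⟩
  · have := Nat.odd_iff.1 h
    exact Or.inr ⟨this, by rw [Nat.xor_one_of_odd h]; omega⟩

theorem vx_nrm (n0 : 0 < n) (p : ℕ) : vx n (nrm n p) = vx n p := by
  rw [vx_eq, vx_eq, (dm_nrm n0 p).1]

theorem vx_cpos (n0 : 0 < n) (p : ℕ) : vx n (cpos n p) = vx n p := by
  rw [vx_eq, vx_eq, (dm_cpos n0 p).1]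
  have := xor_cases (p / (2 * n))
  omega

theorem vx_cp (n0 : 0 < n) (k p : ℕ) : vx n (cp n k p) = vx n p := by
  cases k
  · rfl
  · exact vx_cpos n0 p

theorem Nr.vx_add (h : Nr n p) (hj : j ≤ n) : vx n (p + j) = vx n p := by
  rw [vx_eq, vx_eq, (dm_add (by unfold Nr at h; omega)).1]

theorem nr_zero (n0 : 0 < n) : Nr n 0 := by simpa [Nr] using n0

theorem vx_zero (n : ℕ) : vx n 0 = 0 := Nat.zero_div _

theorem alive (n0 : 0 < n) (h : Nat.ble (Nat.mul 4 n) p = true) : vx n p ≠ 0 :=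
  (Nat.div_pos (Nat.le_of_ble_eq_true h) (show 0 < 4 * n by omega)).ne'

theorem Val.lt {V : ℕ} (h : Val n V p) (n0 : 0 < n) : p < 4 * n * (V + 1) := by
  rw [mul_comm, ← Nat.div_lt_iff_lt_mul (by omega)]
  exact Nat.lt_succ_of_le h.2

theorem exists_dec (n0 : 0 < n) (h : Nr n p) : ∃ j < 2 * n, p = vx n p * (4 * n) + dec n j := by
  refine ⟨p / (2 * n) % 2 * n + p % (2 * n), ?_, ?_⟩
  · have := Nat.mod_lt (p / (2 * n)) two_pos
    unfold Nr at h
    nlinarith
  · have e : (p / (2 * n) % 2 * n + p % (2 * n)) / n = p / (2 * n) % 2 := by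
      rw [add_comm, Nat.add_mul_div_right _ _ n0, Nat.div_eq_of_lt h, zero_add]
    have h1 := Nat.div_add_mod' p (2 * n)
    have h2 := Nat.div_add_mod' (p / (2 * n)) 2
    show _ = _ + (_ + _ / n * n)
    rw [e, vx_eq]
    nlinarith

variable {G : Type} [Group G] {a b c : G} {e : ℕ → G}

/-- the group element at a position -/
def El (b c : G) (n : ℕ) (e : ℕ → G) (p : ℕ) : G :=
  e (vx n p) * (c ^ (p / (2 * n)) * (c * b) ^ (p % (2 * n)))

def ev (a r : G) (n : ℕ) : ℕ → ℕ → G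
  | 0, _ => 1
  | l + 1, w => a * r ^ (w % n) * ev a r n l (w / n)

def ce (c : G) : ℕ → G
  | 0 => 1
  | _ + 1 => c

theorem ev_add (a r : G) (n k : ℕ) : ∀ l w, ev a r n (l + k) w =
    ev a r n l w * ev a r n k (w / n ^ l)
  | 0, w => by simp [ev]
  | l + 1, w => by
    rw [add_right_comm, ev, ev, ev_add a r n k l, Nat.div_div_eq_div_mul, pow_succ', mul_assoc,
      mul_assoc, mul_assoc]

theorem ev_snoc (a r : G) (n0 : 0 < n) (hj : j < n) : ∀ l w, w < n ^ l →
    ev a r n (l + 1) (w + j * n ^ l) = ev a r n l w * (a * r ^ j)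
  | 0, w, h => by
    obtain rfl : w = 0 := by simpa using h
    simp [ev, Nat.mod_eq_of_lt hj]
  | l + 1, w, h => by
    rw [ev, pow_succ, ← mul_assoc j, Nat.add_mul_mod_self_right, Nat.add_mul_div_right _ _ n0,
      ev_snoc a r n0 hj l _ (by rwa [Nat.div_lt_iff_lt_mul n0]), ev, mul_assoc _ (ev a r n l _)]

structure Hy (a b c : G) (m n N : ℕ) : Prop where
  nm : NM a b c
  hm : orderOf (a * b) = m
  hn : orderOf (b * c) = n
  card : Nat.card G = 2 * n * N
  bd : 4 * n * (N + 1) ≤ 2 ^ 14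

variable {m N : ℕ}

theorem Hy.n0 [Finite G] (H : Hy a b c m n N) : 0 < n := H.hn ▸ orderOf_pos _

theorem Hy.ord (H : Hy a b c m n N) : orderOf (c * b) = n := by
  rw [ord_dual H.nm.b2 H.nm.c2, H.hn]

theorem Hy.pow_mod (H : Hy a b c m n N) (i : ℕ) : (c * b) ^ (i % n) = (c * b) ^ i := by
  rw [← H.ord, pow_mod_orderOf]

theorem Hy.rc (H : Hy a b c m n N) (i : ℕ) : c * ((c * b) ^ i)⁻¹ = (c * b) ^ i * c := by
  rw [← dih_inv_l H.nm.c2 H.nm.b2 (pow_mem (mem_zpowers _) i), mul_assoc, mul_cancel_inv H.nm.c2]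

theorem Nr.el_add (h : Nr n p) (hj : j ≤ n) : El b c n e (p + j) = El b c n e p * (c * b) ^ j := by
  have := dm_add (p := p) (j := j) (n := n) (by unfold Nr at h; omega)
  rw [El, El, h.vx_add hj, this.1, this.2, pow_add, mul_assoc, mul_assoc]

variable [Finite G]

theorem Hy.el_nrm (H : Hy a b c m n N) (p : ℕ) : El b c n e (nrm n p) = El b c n e p := by
  rw [El, El, vx_nrm H.n0, (dm_nrm H.n0 p).1, (dm_nrm H.n0 p).2, ← mod_mod, H.pow_mod]

theorem Hy.el_cpos (H : Hy a b c m n N) (p : ℕ) : El b c n e (cpos n p) = El b c n e p * c := by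
  have h1 : c ^ (p / (2 * n) ^^^ 1) = c ^ (p / (2 * n)) * c := by
    rcases xor_cases (p / (2 * n)) with ⟨-, h⟩ | ⟨-, h⟩
    · rw [h, pow_succ]
    · conv_rhs => rw [← h, pow_succ, mul_assoc, H.nm.c2, mul_one]
  have h2 : (c * b) ^ (2 * n - p % (2 * n)) = ((c * b) ^ (p % (2 * n)))⁻¹ := by
    have := H.n0
    rw [eq_inv_iff_mul_eq_one, ← pow_add, Nat.sub_add_cancel (Nat.mod_lt _ (by omega)).le, mul_comm,
      pow_mul, ← H.ord, pow_orderOf_eq_one, one_pow]
  rw [El, El, vx_cpos H.n0, (dm_cpos H.n0 p).1, (dm_cpos H.n0 p).2, H.pow_mod, h1, h2, mul_assoc,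
    H.rc, mul_assoc, mul_assoc]

theorem Hy.el_cp (H : Hy a b c m n N) (k p : ℕ) :
    El b c n e (cp n k p) = El b c n e p * ce c k := by
  cases k
  · exact (mul_one _).symm
  · exact H.el_cpos p

omit [Finite G] in
theorem el_mk (n : ℕ) (e : ℕ → G) (p : ℕ) :
    ((El b c n e p : G) : G ⧸ closure ({b, c} : Set G)) =
      ((e (vx n p) : G) : G ⧸ closure ({b, c} : Set G)) :=
  QuotientGroup.mk_mul_of_mem _ (mul_mem (pow_mem r_mem_dih _)
    (pow_mem (mul_mem r_mem_dih l_mem_dih) _))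

omit [Finite G] in
theorem Hy.el_inj (H : Hy a b c m n N) (hv : vx n p = vx n q)
    (h : El b c n e p = El b c n e q) : nrm n p = nrm n q := by
  rw [El, El, hv, mul_right_inj] at h
  have k : ∀ {u i i' : ℕ}, c ^ (u + 1) * (c * b) ^ i ≠ c ^ u * (c * b) ^ i' := fun {u i i'} h1 => by
    rw [pow_succ, mul_assoc, mul_right_inj, ← eq_mul_inv_iff_mul_eq] at h1
    refine H.nm.c_notMem_Y ?_
    rw [← zp_dual H.nm.b2 H.nm.c2]
    exact (congrArg (· ∈ zpowers (c * b)) h1).mpr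
      (mul_mem (pow_mem (mem_zpowers _) _) (inv_mem (pow_mem (mem_zpowers _) _)))
  rw [vx_eq, vx_eq] at hv
  have e1 : p / (2 * n) = q / (2 * n) := by
    by_contra h1
    rcases (by omega : p / (2 * n) = q / (2 * n) + 1 ∨ q / (2 * n) = p / (2 * n) + 1) with h2 | h2
    · exact k (h2 ▸ h)
    · exact k (h2 ▸ h.symm)
  rw [e1, mul_right_inj, pow_inj_mod, H.ord, mod_mod, mod_mod] at h
  rw [nrm_eq, nrm_eq, e1, h]

theorem Hy.mem_D (H : Hy a b c m n N) {d : G} (hd : d ∈ closure ({b, c} : Set G)) :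
    ∃ j < 2 * n, d = (c * b) ^ (j % n) * ce c (j / n) := by
  have n0 := H.n0
  have k : ∀ d ∈ zpowers (b * c), ∃ i < n, d = (c * b) ^ i := fun d hd => by
    rw [← zp_dual H.nm.b2 H.nm.c2, ← mem_powers_iff_mem_zpowers] at hd
    obtain ⟨i, rfl⟩ := hd
    exact ⟨i % n, Nat.mod_lt _ n0, (H.pow_mod i).symm⟩
  rcases (dih_mem H.nm.b2 H.nm.c2).1 hd with h | h
  · obtain ⟨i, hi, rfl⟩ := k d h
    exact ⟨i, by omega, by rw [Nat.mod_eq_of_lt hi, Nat.div_eq_of_lt hi, ce, mul_one]⟩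
  · obtain ⟨i, hi, e1⟩ := k _ h
    refine ⟨i + n, by omega, ?_⟩
    rw [Nat.add_mod_right, Nat.add_div_right _ n0, Nat.mod_eq_of_lt hi, ce, ← e1, mul_assoc,
      H.nm.c2, mul_one]

theorem Hy.index (H : Hy a b c m n N) : Nat.card (G ⧸ closure ({b, c} : Set G)) = N := by
  have h1 := card_eq_card_quotient_mul_card_subgroup (closure ({b, c} : Set G))
  rw [H.nm.card_DY, H.card, H.hn, mul_comm] at h1
  exact (Nat.eq_of_mul_eq_mul_right (by have := H.n0; omega) h1).symm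

end Pool.Agent.MP_912f41_co.Eng

end MrgPart0

-- ======== part 1: formerly Pool.Agent.MP_912f41_co.All.Tr
section MrgPart1

/-! Traces in the tables of the checker. -/

set_option autoImplicit false

namespace Pool.Agent.MP_912f41_co.Eng

open Subgroup

variable {G : Type} [Group G] {a b c : G} {e : ℕ → G} {m n N T V F p f s g l w : ℕ}

structure Inv (a b c : G) (n N : ℕ) (e : ℕ → G) (T V : ℕ) : Prop where
  tab : ∀ p, get T p ≠ 0 → Val n V p ∧ Val n V (get T p) ∧ Nr n (get T p) ∧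
    El b c n e p * a = El b c n e (get T p)
  inj : ∀ v v', 1 ≤ v → v ≤ V → 1 ≤ v' → v' ≤ V →
    ((e v : G) : G ⧸ closure ({b, c} : Set G)) = (e v' : G) → v = v'
  v1 : 1 ≤ V
  vN : V ≤ N

def Ful (n T F : ℕ) : Prop := ∀ q, Nr n q → F.testBit (vx n q) = true → get T (get T q) ≠ 0

def Mono (T U : ℕ) : Prop := ∀ q, get T q ≠ 0 → get U q = get T q

/-- the value of a stored word -/
def wv (a b c : G) (n l k w : ℕ) : G := ev a (c * b) n l w * ce c k

def Rel (a b c : G) (n : ℕ) (R : List Rl) : Prop := ∀ q ∈ R, wv a b c n q.1 q.2.1 q.2.2 = 1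

theorem Inv.dead (I : Inv a b c n N e T V) (h : vx n p = 0) : get T p = 0 := by
  by_contra h1
  have := (I.tab p h1).1.1
  omega

theorem Inv.get0 (I : Inv a b c n N e T V) : get T 0 = 0 := I.dead (vx_zero n)

theorem Inv.gg (I : Inv a b c n N e T V) (h : get T (get T p) ≠ 0) : get T p ≠ 0 := fun h1 =>
  h (h1 ▸ I.get0)

theorem Ful.mono {U : ℕ} (I : Inv a b c n N e T V) (h : Ful n T F) (hU : Mono T U) : Ful n U F :=
  fun q hq hF => by
    rw [hU q (I.gg (h q hq hF)), hU _ (h q hq hF)]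
    exact h q hq hF

theorem Mono.trans {U W : ℕ} (h : Mono T U) (h' : Mono U W) : Mono T W := fun q hq => by
  rw [h' q (by rwa [h q hq]), h q hq]

theorem Inv.vx_inj (I : Inv a b c n N e T V) {q : ℕ} (hp : Val n V p) (hq : Val n V q) {d : G}
    (hd : d ∈ closure ({b, c} : Set G)) (h : El b c n e p * d = El b c n e q) : vx n p = vx n q := by
  refine I.inj _ _ hp.1 hp.2 hq.1 hq.2 ?_
  rw [← el_mk, ← el_mk, ← h, QuotientGroup.mk_mul_of_mem _ hd]

theorem Inv.el_inj (I : Inv a b c n N e T V) (H : Hy a b c m n N) {q : ℕ} (hp : Val n V p)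
    (hq : Val n V q) (h : El b c n e p = El b c n e q) : nrm n p = nrm n q :=
  H.el_inj (I.vx_inj hp hq (one_mem _) (by rwa [mul_one])) h

theorem Val.congr {q : ℕ} (h : Val n V p) (e : vx n q = vx n p) : Val n V q := by
  unfold Val at *
  rwa [e]

variable [Finite G]

theorem Inv.put2 (I : Inv a b c n N e T V) (H : Hy a b c m n N) {x : ℕ} (hp : Val n V p)
    (np : Nr n p) (hx : Val n V x) (nx : Nr n x) (h : El b c n e p * a = El b c n e x) :
    Inv a b c n N e (put2 n T p x) V ∧ Mono T (put2 n T p x) := by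
  have lt : x < 2 ^ 14 := (hx.lt H.n0).trans_le
    ((Nat.mul_le_mul_left _ (Nat.succ_le_succ I.vN)).trans H.bd)
  refine ⟨⟨fun q hq => ?_, I.inj, I.v1, I.vN⟩, fun q hq => ?_⟩
  · rcases get_put2 lt n T p q with h1 | ⟨-, h1, h2⟩
    · rw [h1] at hq ⊢
      exact I.tab q hq
    · rw [h2]
      rcases h1 with rfl | rfl
      · exact ⟨hp, hx, nx, h⟩
      · refine ⟨hp.congr (np.vx_add le_rfl), hx, nx, ?_⟩
        rw [np.el_add le_rfl, ← H.pow_mod, Nat.mod_self, pow_zero, mul_one, h]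
  · exact (get_put2 lt n T p q).resolve_right fun h1 => hq h1.1

theorem Inv.four (H : Hy a b c m n N) (hf : Val n V f) (hs : Val n V s)
    (h : El b c n e f * a = El b c n e s) : ∀ T, Inv a b c n N e T V →
    (Inv a b c n N e (Eng.put2 n T (nrm n f) (nrm n s)) V ∧ Mono T (Eng.put2 n T (nrm n f) (nrm n s))) ∧
    (Inv a b c n N e (Eng.put2 n T (nrm n s) (nrm n f)) V ∧ Mono T (Eng.put2 n T (nrm n s) (nrm n f))) ∧
    (Inv a b c n N e (Eng.put2 n T (cpos n f) (cpos n s)) V ∧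
      Mono T (Eng.put2 n T (cpos n f) (cpos n s))) ∧
    (Inv a b c n N e (Eng.put2 n T (cpos n s) (cpos n f)) V ∧
      Mono T (Eng.put2 n T (cpos n s) (cpos n f))) := fun T I => by
  have n0 := H.n0
  have h' : El b c n e s * a = El b c n e f := by rw [← h, mul_assoc, H.nm.a2, mul_one]
  have f1 := hf.congr (vx_nrm n0 f)
  have s1 := hs.congr (vx_nrm n0 s)
  have f2 := hf.congr (vx_cpos n0 f)
  have s2 := hs.congr (vx_cpos n0 s)
  refine ⟨I.put2 H f1 (nr_nrm n0 f) s1 (nr_nrm n0 s) (by rwa [H.el_nrm, H.el_nrm]),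
    I.put2 H s1 (nr_nrm n0 s) f1 (nr_nrm n0 f) (by rwa [H.el_nrm, H.el_nrm]),
    I.put2 H f2 (nr_cpos n0 f) s2 (nr_cpos n0 s) ?_, I.put2 H s2 (nr_cpos n0 s) f2 (nr_cpos n0 f) ?_⟩
  · rw [H.el_cpos, H.el_cpos, ← h, mul_assoc, mul_assoc, H.nm.ac]
  · rw [H.el_cpos, H.el_cpos, ← h', mul_assoc, mul_assoc, H.nm.ac]

theorem Inv.set (I : Inv a b c n N e T V) (H : Hy a b c m n N) (hf : Val n V f) (hs : Val n V s)
    (h : El b c n e f * a = El b c n e s) :
    Inv a b c n N e (set n T f s) V ∧ Mono T (set n T f s) := by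
  have k := Inv.four H hf hs h
  have h1 := (k _ I).1
  have h2 := (k _ h1.1).2.1
  have h3 := (k _ h2.1).2.2.1
  have h4 := (k _ h3.1).2.2.2
  exact ⟨h4.1, ((h1.2.trans h2.2).trans h3.2).trans h4.2⟩

theorem Inv.set1 (I : Inv a b c n N e T V) (H : Hy a b c m n N) (hf : Val n V f) (hs : Val n V s)
    (h : El b c n e f * a = El b c n e s) (u : ℕ) : Inv a b c n N e (set1 n T f s u) V := by
  obtain ⟨h1, h2, h3, h4⟩ := Inv.four H hf hs h T I
  rcases u with _ | _ | _ | _ | _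
  exacts [I, h1.1, h2.1, h3.1, h4.1]

theorem Inv.nr (I : Inv a b c n N e T V) (H : Hy a b c m n N) (p : ℕ) : Nr n (get T p) := by
  by_cases h : get T p = 0
  · exact h ▸ nr_zero H.n0
  · exact (I.tab p h).2.2.1

theorem Inv.tr_dead (I : Inv a b c n N e T V) (H : Hy a b c m n N) :
    ∀ l p w, vx n p = 0 → vx n (tr T n l p w) = 0
  | 0, _, _, h => h
  | l + 1, p, w, h => I.tr_dead H l (get T p + w % n) (w / n) (by
      rw [(I.nr H p).vx_add (Nat.mod_lt _ H.n0).le, I.dead h, vx_zero])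

theorem Inv.tr_first (I : Inv a b c n N e T V) (H : Hy a b c m n N)
    (h : vx n (tr T n (l + 1) p w) ≠ 0) : get T p ≠ 0 := fun h1 =>
  h (I.tr_dead H l (get T p + w % n) (w / n) (by
    rw [(I.nr H p).vx_add (Nat.mod_lt _ H.n0).le, h1, vx_zero]))

theorem Inv.tr_ok (I : Inv a b c n N e T V) (H : Hy a b c m n N) : ∀ l p w, Val n V p →
    vx n (tr T n l p w) ≠ 0 →
      Val n V (tr T n l p w) ∧ El b c n e (tr T n l p w) = El b c n e p * ev a (c * b) n l w
  | 0, _, _, hp, _ => ⟨hp, (mul_one _).symm⟩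
  | l + 1, p, w, _, h => by
    obtain ⟨-, h1, h2, h3⟩ := I.tab p (I.tr_first H h)
    have lt := (Nat.mod_lt w H.n0).le
    have := I.tr_ok H l (get T p + w % n) (w / n) (h1.congr (h2.vx_add lt)) h
    refine ⟨this.1, this.2.trans ?_⟩
    rw [h2.el_add lt, ← h3, ev]
    simp only [mul_assoc]

theorem Inv.two (I : Inv a b c n N e T V) (H : Hy a b c m n N) {k r l' w' : ℕ}
    (h : vx n (tr T n r (cp n k (tr T n l' p w')) w) ≠ 0) : vx n (tr T n l' p w') ≠ 0 ∧
    (Val n V p → Val n V (tr T n r (cp n k (tr T n l' p w')) w) ∧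
      El b c n e (tr T n r (cp n k (tr T n l' p w')) w) =
        El b c n e p * (ev a (c * b) n l' w' * ce c k * ev a (c * b) n r w)) := by
  have h1 : vx n (tr T n l' p w') ≠ 0 := fun h1 => h (I.tr_dead H _ _ _ (by rwa [vx_cp H.n0]))
  refine ⟨h1, fun hp => ?_⟩
  have h2 := I.tr_ok H _ _ _ hp h1
  have h3 := I.tr_ok H _ _ _ (h2.1.congr (vx_cp H.n0 k _)) h
  refine ⟨h3.1, h3.2.trans ?_⟩
  rw [H.el_cp, h2.2]
  simp only [mul_assoc]

theorem Inv.conf (I : Inv a b c n N e T V) (H : Hy a b c m n N) {k r : ℕ}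
    (hR : wv a b c n l k w = 1) (hg : Nr n g) (h : conf T n l k w r g = true) : False := by
  simp only [Eng.conf, an_iff] at h
  obtain ⟨d, rfl⟩ := Nat.exists_eq_add_of_lt (Nat.le_of_ble_eq_true h.1)
  have e1 : Nat.sub (r + d + 1) r = d + 1 := by show r + d + 1 - r = _; omega
  obtain ⟨h1, h2⟩ := I.two H (alive H.n0 h.2.1)
  rw [e1] at h1 h2
  have vg := (I.tab g (I.tr_first H h1)).1
  obtain ⟨h3, h4⟩ := h2 vg
  rw [wv, add_assoc, ev_add, mul_assoc] at hR
  have h5 := I.el_inj H h3 vg (h4.trans (mul_eq_left.2 (mul_eq_one_comm.1 hR)))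
  rw [hg.nrm] at h5
  have h6 := h.2.2
  rw [cyc, e1, h5, Nat.beq_refl] at h6
  cases h6

theorem Inv.run (I : Inv a b c n N e T V) (H : Hy a b c m n N) {k r : ℕ}
    (hR : wv a b c n l k w = 1) (hs : Nr n s) (vs : vx n s ≤ V) (hr : r < l)
    (h : vx n (run T n l k w r s) ≠ 0) : Val n V s ∧ Val n V (run T n l k w r s) ∧
      El b c n e (run T n l k w r s) * a = El b c n e s := by
  obtain ⟨d, rfl⟩ := Nat.exists_eq_add_of_lt hr
  have e1 : Nat.sub (r + d + 1) (Nat.succ r) = d := by show r + d + 1 - (r + 1) = _; omega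
  have lt := (Nat.mod_lt (w / n ^ r) H.n0).le
  obtain ⟨h1, h2⟩ := I.two H h
  have vs' : Val n V s := ⟨Nat.pos_of_ne_zero fun h3 =>
    h1 (I.tr_dead H _ _ _ ((hs.vx_add lt).trans h3)), vs⟩
  obtain ⟨h3, h4⟩ := h2 (vs'.congr (hs.vx_add lt))
  refine ⟨vs', h3, (congrArg (· * a) (h4.trans (congrArg (· * _) (hs.el_add lt)))).trans ?_⟩
  rw [wv, add_assoc, ev_add, ev, mul_assoc, mul_eq_one_comm, mul_assoc a, mul_assoc a,
    mul_assoc a, mul_eq_one_comm] at hR
  rw [e1, mul_assoc, mul_assoc, mul_eq_left, ← hR]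
  simp only [mul_assoc]
  rfl

theorem Inv.pw_dead (I : Inv a b c n N e T V) (H : Hy a b c m n N) {k : ℕ} :
    ∀ i p, vx n p = 0 → vx n (pw T n l k w i p) = 0
  | 0, _, h => h
  | i + 1, p, h => I.pw_dead H i _ (by rw [vx_cp H.n0, I.tr_dead H _ _ _ h])

theorem Inv.pw_ok (I : Inv a b c n N e T V) (H : Hy a b c m n N) {k : ℕ} : ∀ i p, Val n V p →
    vx n (pw T n l k w i p) ≠ 0 → Val n V (pw T n l k w i p) ∧
      El b c n e (pw T n l k w i p) = El b c n e p * wv a b c n l k w ^ i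
  | 0, _, hp, _ => ⟨hp, by rw [pow_zero, mul_one]; rfl⟩
  | i + 1, p, hp, h => by
    have h1 := I.tr_ok H l p w hp fun h1 => h (I.pw_dead H i _ (by rwa [vx_cp H.n0]))
    have h2 := I.pw_ok H i _ (h1.1.congr (vx_cp H.n0 k _)) h
    refine ⟨h2.1, h2.2.trans ?_⟩
    rw [H.el_cp, h1.2, pow_succ', wv]
    simp only [mul_assoc]

omit [Finite G] in
theorem pw_add {k i : ℕ} : ∀ j p, pw T n l k w (j + i) p = pw T n l k w i (pw T n l k w j p)
  | 0, p => by rw [zero_add]; rfl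
  | j + 1, p => by
    rw [add_right_comm]
    exact pw_add j _

theorem Inv.closes (I : Inv a b c n N e T V) (H : Hy a b c m n N) {k i : ℕ}
    (h : closes T n l k w i s = true) :
    get T s ≠ 0 ∧ vx n (pw T n l k w i s) ≠ 0 ∧ wv a b c n l k w ^ i = 1 := by
  simp only [Eng.closes, Bool.and_eq_true, Nat.blt_eq, Nat.beq_eq] at h
  have vs := (I.tab s h.1.ne').1
  have h1 : vx n (pw T n l k w i s) ≠ 0 := by
    rw [← vx_nrm H.n0, h.2]
    exact Nat.pos_iff_ne_zero.1 vs.1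
  have h2 := (I.pw_ok H i s vs h1).2
  rw [← H.el_nrm, h.2] at h2
  exact ⟨h.1.ne', h1, left_eq_mul.1 h2⟩

theorem Inv.ord (I : Inv a b c n N e T V) (H : Hy a b c m n N) {k r : ℕ} (hs : Nr n s)
    (h : Eng.closes T n l k w r s = true) (le : Nat.gcd r (2 * n * N) ≤ r) :
    Eng.closes T n l k w (Nat.gcd r (2 * n * N)) s = true := by
  obtain ⟨h1, h2, h3⟩ := I.closes H h
  obtain ⟨d, hd⟩ := Nat.exists_eq_add_of_le le
  have vs := (I.tab s h1).1
  have h4 := I.pw_ok H (l := l) (k := k) (w := w) (Nat.gcd r (2 * n * N)) s vs fun h4 => h2 (by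
    rw [hd, pw_add]
    exact I.pw_dead H _ _ h4)
  rw [pow_gcd_eq_one.2 ⟨h3, H.card ▸ pow_card_eq_one'⟩, mul_one] at h4
  simp only [Eng.closes, Bool.and_eq_true, Nat.blt_eq, Nat.beq_eq]
  exact ⟨Nat.pos_of_ne_zero h1, (I.el_inj H h4.1 vs h4.2).trans hs.nrm⟩

theorem Inv.pth_dead (I : Inv a b c n N e T V) (H : Hy a b c m n N) :
    ∀ l w, pth T n l 0 w = 0
  | 0, _ => rfl
  | l + 1, w => by
    have : get T (0 + w % n) = 0 :=
      I.dead (((nr_zero H.n0).vx_add (Nat.mod_lt _ H.n0).le).trans (vx_zero n))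
    exact (congrArg (pth T n l · (w / n)) this).trans (I.pth_dead H l _)

theorem Inv.step (I : Inv a b c n N e T V) (H : Hy a b c m n N) (hp : Nr n p)
    (h : get T (p + w % n) ≠ 0) : Val n V (get T (p + w % n)) ∧ Nr n (get T (p + w % n)) ∧
      El b c n e (get T (p + w % n)) = El b c n e p * ((c * b) ^ (w % n) * a) := by
  obtain ⟨-, h1, h2, h3⟩ := I.tab _ h
  exact ⟨h1, h2, by rw [← h3, hp.el_add (Nat.mod_lt _ H.n0).le, mul_assoc]⟩

theorem Inv.pth_ok (I : Inv a b c n N e T V) (H : Hy a b c m n N) : ∀ l p w, Val n V p → Nr n p →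
    pth T n l p w ≠ 0 → Val n V (pth T n l p w) ∧ Nr n (pth T n l p w) ∧
      El b c n e p * a * ev a (c * b) n l w = El b c n e (pth T n l p w) * a
  | 0, _, _, hp, np, _ => ⟨hp, np, mul_one _⟩
  | l + 1, p, w, _, np, h => by
    obtain ⟨h1, h2, h3⟩ := I.step H np (w := w) fun h1 =>
      h ((congrArg (pth T n l · (w / n)) h1).trans (I.pth_dead H l _))
    obtain ⟨k1, k2, k3⟩ := I.pth_ok H l _ (w / n) h1 h2 h
    refine ⟨k1, k2, Eq.trans ?_ k3⟩
    rw [h3, ev]
    simp only [mul_assoc, mul_cancel_inv H.nm.a2]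

/-- vertices that do not contain the neighbour of `f` -/
def Kl (a b c : G) (n : ℕ) (e : ℕ → G) (V f K : ℕ) : Prop := ∀ v, K.testBit v = true → 1 ≤ v →
  v ≤ V → ((El b c n e f * a : G) : G ⧸ closure ({b, c} : Set G)) ≠ (e v : G)

omit [Finite G] in
theorem Kl.add {K v : ℕ} (h : Kl a b c n e V f K) (hv : 1 ≤ v → v ≤ V →
    ((El b c n e f * a : G) : G ⧸ closure ({b, c} : Set G)) ≠ (e v : G)) :
    Kl a b c n e V f (Nat.lor K (Nat.shiftLeft 1 v)) := fun u hu => by
  rcases (bit_or K v u).1 hu with h1 | rfl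
  exacts [h u h1, hv]

omit [Finite G] in
theorem Inv.kill (I : Inv a b c n N e T V) (hs : get T s ≠ 0) {g g' : ℕ} {u : G}
    (hg : El b c n e g = El b c n e f * u) (v' : Val n V g') (hg' : El b c n e g' = El b c n e s * u)
    (ne : vx n g' ≠ vx n (get T s)) :
    ((El b c n e f * a : G) : G ⧸ closure ({b, c} : Set G)) ≠ (e (vx n g) : G) := fun h => by
  obtain ⟨-, h1, -, h2⟩ := I.tab s hs
  rw [← el_mk, hg, eq_comm, QuotientGroup.eq] at h
  refine ne (I.vx_inj v' h1 h ?_)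
  rw [hg', ← h2]
  group

theorem Inv.wk (I : Inv a b c n N e T V) (H : Hy a b c m n N) (hs : get T s ≠ 0) :
    ∀ l g g' w K, Nr n g → Nr n g' → (g' ≠ 0 → Kl a b c n e V f K ∧ ∃ u,
      (g = 0 ∨ El b c n e g = El b c n e f * u) ∧ El b c n e g' = El b c n e s * u) →
      Kl a b c n e V f (wk T n (vx n (get T s)) l g g' w K)
  | 0, _, 0, _, _, _, _, _ => fun v hv => by simp [Eng.wk] at hv
  | 0, _, _ + 1, _, _, _, _, h => (h (Nat.succ_ne_zero _)).1
  | l + 1, g, g', w, K, ng, ng', h => by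
    have d0 : get T (0 + w % n) = 0 :=
      I.dead (((nr_zero H.n0).vx_add (Nat.mod_lt _ H.n0).le).trans (vx_zero n))
    have key : get T (g' + w % n) ≠ 0 → Kl a b c n e V f K ∧ Val n V (get T (g' + w % n)) ∧ ∃ u,
        (get T (g + w % n) = 0 ∨ El b c n e (get T (g + w % n)) = El b c n e f * u) ∧
          El b c n e (get T (g' + w % n)) = El b c n e s * u := fun h1 => by
      obtain ⟨k1, u, k2, k3⟩ := h (by rintro rfl; exact h1 d0)
      obtain ⟨k4, -, k5⟩ := I.step H ng' h1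
      refine ⟨k1, k4, u * ((c * b) ^ (w % n) * a), or_iff_not_imp_left.2 fun h2 => ?_,
        by rw [k5, k3, mul_assoc]⟩
      rw [(I.step H ng h2).2.2, k2.resolve_left (by rintro rfl; exact h2 d0), mul_assoc]
    show Kl a b c n e V f (Bool.rec (motive := fun _ => ℕ)
      (Eng.wk T n _ l (get T (g + w % n)) (get T (g' + w % n)) (w / n)
        (Nat.lor K (Nat.shiftLeft 1 (vx n (get T (g + w % n))))))
      (Eng.wk T n _ l (get T (g + w % n)) (get T (g' + w % n)) (w / n) K)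
      (Nat.beq (vx n (get T (g' + w % n))) (vx n (get T s))))
    cases hb : Nat.beq (vx n (get T (g' + w % n))) (vx n (get T s))
    · refine I.wk H hs l _ _ _ _ (I.nr H _) (I.nr H _) fun h1 => ?_
      obtain ⟨k1, k2, u, k3, k4⟩ := key h1
      refine ⟨k1.add fun v1 _ => I.kill hs (k3.resolve_left fun h2 => ?_) k2 k4
        (Nat.ne_of_beq_eq_false hb), u, k3, k4⟩
      rw [h2, vx_zero] at v1
      omega
    · exact I.wk H hs l _ _ _ _ (I.nr H _) (I.nr H _) fun h1 => ⟨(key h1).1, (key h1).2.2⟩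

theorem Inv.walk (I : Inv a b c n N e T V) (H : Hy a b c m n N) (nf : Nr n f) (ns : Nr n s) :
    Kl a b c n e V f (walk T n f s l w) := by
  have z : Kl a b c n e V f 0 := fun v hv => by simp at hv
  have k : ∀ t x : ℕ, (t ≠ 0 → Kl a b c n e V f x) →
      Kl a b c n e V f (Nat.rec 0 (fun _ _ => x) t) := fun t x h => by
    cases t
    exacts [z, h (Nat.succ_ne_zero _)]
  refine k _ _ fun h1 => ?_
  · refine I.wk H h1 l f s w _ nf ns fun _ => ⟨?_, 1, Or.inr (mul_one _).symm, (mul_one _).symm⟩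
    cases hb : Nat.beq (vx n s) (vx n (get T s))
    · have := z.add (v := vx n f) fun _ _ => I.kill h1 (mul_one _).symm (I.tab s h1).1
        (mul_one _).symm (Nat.ne_of_beq_eq_false hb)
      exact fun v hv => this v ((bit_or 0 _ v).2 (Or.inr (by
        change (1 <<< vx n f).testBit v = true at hv
        rw [Nat.one_shiftLeft, Nat.testBit_two_pow, decide_eq_true_eq] at hv
        exact hv.symm)))
    · exact z

theorem Inv.walks (I : Inv a b c n N e T V) (H : Hy a b c m n N) (nf : Nr n f) {K : ℕ}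
    (hK : Kl a b c n e V f K) : ∀ L, Kl a b c n e V f (walks T n f K L)
  | [] => hK
  | x :: L => fun v hv => by
    change (Eng.walks T n f K L ||| Eng.walk T n f _ _ _).testBit v = true at hv
    rw [Nat.testBit_or, Bool.or_eq_true] at hv
    exact hv.elim (I.walks H nf hK L v) (I.walk H nf (nr_dec H.n0 _) v)

end Pool.Agent.MP_912f41_co.Eng

end MrgPart1

-- ======== part 2: formerly Pool.Agent.MP_912f41_co.All.Sound
section MrgPart2

/-! Soundness of the checker. -/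

set_option autoImplicit false

namespace Pool.Agent.MP_912f41_co.Eng

open Subgroup

variable {G : Type} [Group G] {a b c : G} {e : ℕ → G} {m n N T V F p f s g l w : ℕ}

theorem all_of_rec {P : ℕ → Prop} {st : ℕ → Bool → Bool} {z : Bool}
    (h : ∀ j x, st j x = true → P j ∧ x = true) :
    ∀ k, Nat.rec (motive := fun _ => Bool) z st k = true → ∀ j < k, P j
  | 0, _, _, hj => absurd hj (Nat.not_lt_zero _)
  | k + 1, hk, j, hj => by
    rcases Nat.lt_succ_iff_lt_or_eq.1 hj with h1 | rfl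
    exacts [all_of_rec h k (h k _ hk).2 j h1, (h _ _ hk).1]

theorem Ful.add (h : Ful n T F) (n0 : 0 < n) {v : ℕ} (hv : full T n v = true) :
    Ful n T (Nat.lor F (Nat.shiftLeft 1 v)) := fun q hq hF => by
  rcases (bit_or F v _).1 hF with h1 | rfl
  · exact h q hq h1
  obtain ⟨j, hj, e1⟩ := exists_dec n0 hq
  rw [e1]
  refine all_of_rec (P := fun j => get T (get T (vx n q * (4 * n) + dec n j)) ≠ 0)
    (fun j x h1 => ?_) _ hv j hj
  change Nat.rec false (fun _ _ => x) (get T (get T (vx n q * (4 * n) + dec n j))) = true at h1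
  cases h2 : get T (get T (vx n q * (4 * n) + dec n j)) <;> rw [h2] at h1
  · cases h1
  · exact ⟨Nat.succ_ne_zero _, h1⟩

theorem nth_mem : ∀ (R : List Rl) (i : ℕ), nth R i ∈ R ∨ nth R i = (0, 0, 0)
  | [], _ => Or.inr rfl
  | _ :: _, 0 => Or.inl List.mem_cons_self
  | _ :: R, i + 1 => (nth_mem R i).imp_left (List.mem_cons_of_mem _)

theorem Rel.nth {R : List Rl} (h : Rel a b c n R) (i : ℕ) :
    wv a b c n (nth R i).1 (nth R i).2.1 (nth R i).2.2 = 1 := by
  rcases nth_mem R i with h1 | h1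
  · exact h _ h1
  · rw [h1]
    exact mul_one _

theorem base_dm (n0 : 0 < n) (v : ℕ) : 4 * n * v / (2 * n) = 2 * v ∧ 4 * n * v % (2 * n) = 0 := by
  have := dm (b := 2 * v) (i := 0) (n := n) (by omega)
  rwa [show 2 * v * (2 * n) + 0 = 4 * n * v by ring] at this

theorem base_vx (n0 : 0 < n) (v : ℕ) : vx n (4 * n * v) = v := by
  rw [vx_eq, (base_dm n0 v).1]
  omega

theorem base_nr (n0 : 0 < n) (v : ℕ) : Nr n (4 * n * v) := (base_dm n0 v).2.trans_lt n0

variable [Finite G]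

theorem Hy.base_el (H : Hy a b c m n N) (v : ℕ) : El b c n e (4 * n * v) = e v := by
  rw [El, base_vx H.n0, (base_dm H.n0 v).1, (base_dm H.n0 v).2, pow_mul, sq, H.nm.c2]
  simp

theorem Inv.ops (H : Hy a b c m n N) {R : List Rl} (hR : Rel a b c n R) {k : ℕ → ℕ → Bool}
    {Gl : Prop} (hk : ∀ T F, Inv a b c n N e T V → Ful n T F → k T F = true → Gl) :
    ∀ l x T F, Inv a b c n N e T V → Ful n T F → ops n V R k l x T F = true → Gl
  | 0, _, T, F, I, hF, h => hk T F I hF h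
  | l + 1, x, T, F, I, hF, h => by
    change Bool.rec (motive := fun _ => Bool) (ded n V T _ _ _ fun T => Eng.ops n V R k l _ T F)
      (an _ (Eng.ops n V R k l _ T _)) _ = true at h
    cases hb : Nat.beq (Nat.mod x 64) 63 <;> rw [hb] at h
    · simp only [ded, an_iff] at h
      obtain ⟨h1, h2, h3⟩ := I.run H (hR.nth _) (nr_dec H.n0 _)
        (Nat.le_of_succ_le_succ (Nat.le_of_ble_eq_true h.2.2.1)) (Nat.le_of_ble_eq_true h.1)
        (alive H.n0 h.2.1)
      have := I.set H h2 h1 h3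
      exact Inv.ops H hR hk l _ _ _ this.1 (hF.mono I this.2) h.2.2.2
    · exact Inv.ops H hR hk l _ _ _ I (hF.add H.n0 (an_iff.1 h).1) (an_iff.1 h).2

theorem Hy.cand (H : Hy a b c m n N) (hg : Nr n g) (j : ℕ) : vx n (cand n g j) = vx n g ∧
    El b c n e (cand n g j) = El b c n e g * ((c * b) ^ (j % n) * ce c (j / n)) := by
  have lt := (Nat.mod_lt j H.n0).le
  exact ⟨(vx_cp H.n0 _ _).trans (hg.vx_add lt),
    (H.el_cp _ _).trans ((congrArg (· * _) (hg.el_add lt)).trans (mul_assoc _ _ _))⟩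

theorem Hy.exists_cand (H : Hy a b c m n N) (hg : Nr n g) {x : G}
    (h : (x : G ⧸ closure ({b, c} : Set G)) = (e (vx n g) : G)) :
    ∃ j < 2 * n, x = El b c n e (Eng.cand n g j) := by
  rw [← el_mk, eq_comm, QuotientGroup.eq] at h
  obtain ⟨j, hj, e1⟩ := H.mem_D h
  exact ⟨j, hj, by rw [(H.cand hg j).2, ← e1, mul_inv_cancel_left]⟩

omit [Finite G] in
theorem Inv.skip (I : Inv a b c n N e T V) (H : Hy a b c m n N) (vf : Val n V f) (nf : Nr n f)
    (hf : get T f = 0) (h : El b c n e f * a = El b c n e p) : get T (get T p) = 0 := by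
  by_contra h1
  obtain ⟨-, h2, h3, h4⟩ := I.tab p (I.gg h1)
  have := I.el_inj H vf h2 (by rw [← h4, ← h, mul_assoc, H.nm.a2, mul_one])
  rw [nf.nrm, h3.nrm] at this
  exact h1 (this ▸ hf)

/-- the data of the loop over one vertex -/
structure Sb (a b c : G) (n : ℕ) (e : ℕ → G) (T V f g l w : ℕ) : Prop where
  vf : Val n V f
  nf : Nr n f
  hf : get T f = 0
  vg : Val n V g
  ng : Nr n g
  lt : w < n ^ l
  eq : El b c n e f * a * ev a (c * b) n l w = El b c n e g * a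

theorem Sb.rel (S : Sb a b c n e T V f g l w) (H : Hy a b c m n N) {j : ℕ}
    (h : El b c n e f * a = El b c n e (cand n g j)) :
    wv a b c n (l + 1) (j / n) (cw n l w j) = 1 := by
  rw [(H.cand S.ng j).2] at h
  have h1 := S.eq
  rw [wv, show cw n l w j = w + j % n * n ^ l from rfl, ev_snoc _ _ H.n0 (Nat.mod_lt _ H.n0) _ _ S.lt,
    ← mul_right_inj (El b c n e f * a), ← mul_assoc, ← mul_assoc, h1, mul_one, h]
  simp only [mul_assoc, mul_cancel_inv H.nm.a2]

theorem Inv.ql (I : Inv a b c n N e T V) (H : Hy a b c m n N) (S : Sb a b c n e T V f g l w)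
    {k : ℕ → Bool} {Gl : Prop} (hk : ∀ j, k j = true →
      (∃ i ≤ j, El b c n e f * a = El b c n e (cand n g i)) → Gl) :
    ∀ j Q, ql T n f l w g k j Q = true →
      (∃ i < j, El b c n e f * a = El b c n e (cand n g i)) → Gl
  | 0, _, _, ⟨_, h, _⟩ => absurd h (Nat.not_lt_zero _)
  | j + 1, Q, h, ⟨i, hi, e1⟩ => by
    change Nat.rec (motive := fun _ => Bool) (Nat.rec (motive := fun _ => Bool) (k j)
      (fun _ _ => an _ (Eng.ql T n f l w g k j _)) _) (fun _ _ => Eng.ql T n f l w g k j Q) _ = true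
      at h
    cases h1 : get T (get T (cand n g j)) <;> rw [h1] at h
    · cases h2 : Nat.mod Q 4194304 <;> rw [h2] at h
      · exact hk j h ⟨i, by omega, e1⟩
      · rcases Nat.lt_succ_iff_lt_or_eq.1 hi with h3 | rfl
        · exact I.ql H S hk j _ (an_iff.1 h).2 ⟨i, h3, e1⟩
        · exact ((I.set1 H S.vf (S.vg.congr (H.cand (e := e) S.ng i).1) e1 _).conf H (S.rel H e1)
            (nr_dec H.n0 _) (an_iff.1 h).1).elim
    · rcases Nat.lt_succ_iff_lt_or_eq.1 hi with h3 | rfl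
      · exact I.ql H S hk j _ h ⟨i, h3, e1⟩
      · rw [I.skip H S.vf S.nf S.hf e1] at h1
        cases h1

theorem Inv.kl_ful (I : Inv a b c n N e T V) (H : Hy a b c m n N) (hF : Ful n T F) (vf : Val n V f)
    (nf : Nr n f) (hf : get T f = 0) : Kl a b c n e V f F := fun v hv _ _ h => by
  rw [← base_vx H.n0 v] at h hv
  obtain ⟨j, -, h1⟩ := H.exists_cand (base_nr H.n0 v) h
  exact hF _ (nr_nrm H.n0 _) (by rwa [vx_nrm H.n0, (H.cand (e := e) (base_nr H.n0 v) j).1])
    (I.skip H vf nf hf (h1.trans (H.el_nrm _).symm))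

theorem Inv.new (I : Inv a b c n N e T V) (H : Hy a b c m n N) {x : G}
    (h : ∀ v, 1 ≤ v → v ≤ V → (x : G ⧸ closure ({b, c} : Set G)) ≠ (e v : G)) :
    Inv a b c n N (Function.update e (V + 1) x) T (V + 1) ∧
      ∀ p, Val n V p → El b c n (Function.update e (V + 1) x) p = El b c n e p := by
  have k : ∀ p, Val n V p → El b c n (Function.update e (V + 1) x) p = El b c n e p := fun p hp => by
    rw [El, Function.update_of_ne (by have := hp.2; omega), El]
  have inj : ∀ v v', 1 ≤ v → v ≤ V + 1 → 1 ≤ v' → v' ≤ V + 1 →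
      ((Function.update e (V + 1) x v : G) : G ⧸ closure ({b, c} : Set G)) =
        (Function.update e (V + 1) x v' : G) → v = v' := fun v v' h1 h2 h3 h4 h5 => by
    by_cases e1 : v = V + 1 <;> by_cases e2 : v' = V + 1
    · omega
    · rw [e1, Function.update_self, Function.update_of_ne e2] at h5
      exact absurd h5 (h v' h3 (by omega))
    · rw [e2, Function.update_self, Function.update_of_ne e1] at h5
      exact absurd h5.symm (h v h1 (by omega))
    · rw [Function.update_of_ne e1, Function.update_of_ne e2] at h5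
      exact I.inj v v' h1 (by omega) h3 (by omega) h5
  refine ⟨⟨fun p hp => ?_, inj, by omega, ?_⟩, k⟩
  · obtain ⟨h1, h2, h3, h4⟩ := I.tab p hp
    exact ⟨⟨h1.1, h1.2.trans V.le_succ⟩, ⟨h2.1, h2.2.trans V.le_succ⟩, h3, by rw [k _ h1, k _ h2, h4]⟩
  · have := Nat.card_le_card_of_injective (fun i : Fin (V + 1) =>
      ((Function.update e (V + 1) x (i + 1) : G) : G ⧸ closure ({b, c} : Set G))) fun i j h1 =>
      Fin.ext (Nat.succ_injective (inj _ _ (by omega) (by omega) (by omega) (by omega) h1))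
    rwa [H.index, Nat.card_fin] at this

/-- complete tables -/
def Cpl (n T V : ℕ) : Prop := ∀ q, Val n V q → Nr n q → get T q ≠ 0

omit [Finite G] in
theorem Inv.cpl (I : Inv a b c n N e T V) (hF : Ful n T F) (h : covers F V = true) : Cpl n T V :=
  fun q hq nq => I.gg (hF q nq (covers_ok h hq.1 hq.2))

theorem Hy.el_r (H : Hy a b c m n N) (hp : Nr n p) :
    vx n (nrm n (p + 1)) = vx n p ∧ El b c n e (nrm n (p + 1)) = El b c n e p * (c * b) :=
  ⟨(vx_nrm H.n0 _).trans (hp.vx_add H.n0), by rw [H.el_nrm, hp.el_add H.n0, pow_one]⟩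

theorem Inv.cover (I : Inv a b c n N e T V) (H : Hy a b c m n N) (C : Cpl n T V) (vp : Val n V p)
    (np : Nr n p) (x : G) : ∃ q, Val n V q ∧ Nr n q ∧ El b c n e p * x = El b c n e q := by
  have k : ∀ x y, y ∈ ({a, b, c} : Set G) → (∃ q, Val n V q ∧ Nr n q ∧ El b c n e p * x =
      El b c n e q) → ∃ q, Val n V q ∧ Nr n q ∧ El b c n e p * (x * y) = El b c n e q := by
    rintro x y (rfl | rfl | rfl) ⟨q, h1, h2, h3⟩ <;> rw [← mul_assoc, h3]
    · exact ⟨_, (I.tab q (C q h1 h2)).2⟩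
    · have := H.el_r (e := e) (nr_cpos H.n0 q)
      exact ⟨_, h1.congr (this.1.trans (vx_cpos H.n0 q)), nr_nrm H.n0 _, by
        rw [this.2, H.el_cpos, mul_assoc, mul_cancel_inv H.nm.c2]⟩
    · exact ⟨_, h1.congr (vx_cpos H.n0 q), nr_cpos H.n0 q, (H.el_cpos q).symm⟩
  refine closure_induction_right (p := fun x _ => ∃ q, Val n V q ∧ Nr n q ∧
    El b c n e p * x = El b c n e q) ⟨p, vp, np, mul_one _⟩ (fun x _ y hy => k x y hy)
    (fun x _ y hy => ?_) (H.nm.gen ▸ mem_top x)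
  have : y⁻¹ = y := by
    rcases hy with rfl | rfl | rfl
    exacts [inv_eq_self H.nm.a2, inv_eq_self H.nm.b2, inv_eq_self H.nm.c2]
  exact this.symm ▸ k x y hy

theorem Inv.val1 (I : Inv a b c n N e T V) (H : Hy a b c m n N) : Val n V (4 * n * 1) := by
  rw [Val, base_vx H.n0]
  exact ⟨le_rfl, I.v1⟩

theorem Inv.small (I : Inv a b c n N e T V) (H : Hy a b c m n N) (C : Cpl n T V) : N ≤ V := by
  have := Nat.card_le_card_of_surjective (fun i : Fin V =>
    ((e (i + 1) : G) : G ⧸ closure ({b, c} : Set G))) fun y => by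
      obtain ⟨x, rfl⟩ := QuotientGroup.mk_surjective y
      obtain ⟨q, h1, -, h2⟩ := I.cover H C (I.val1 H) (base_nr H.n0 1) ((El b c n e _)⁻¹ * x)
      refine ⟨⟨vx n q - 1, by have := h1.1; have := h1.2; omega⟩, ?_⟩
      rw [mul_inv_cancel_left] at h2
      simp only [Nat.sub_add_cancel h1.1, h2, el_mk]
  rwa [H.index, Nat.card_fin] at this

/-- the effect of a group element on a labelling of the positions -/
def Mv {X : Type} (b c : G) (n : ℕ) (e : ℕ → G) (V : ℕ) (L : ℕ → X) (x : G) (φ : X → X) : Prop :=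
  ∀ q q', Val n V q → Nr n q → Val n V q' → Nr n q' → El b c n e q * x = El b c n e q' →
    L q' = φ (L q)

theorem Inv.mv_mul {X : Type} {L : ℕ → X} (I : Inv a b c n N e T V) (H : Hy a b c m n N)
    (C : Cpl n T V) {x y : G} {φ ψ : X → X} (hx : Mv b c n e V L x φ) (hy : Mv b c n e V L y ψ) :
    Mv b c n e V L (x * y) (ψ ∘ φ) := fun q q' h1 h2 h3 h4 h5 => by
  obtain ⟨u, k1, k2, k3⟩ := I.cover H C h1 h2 x
  rw [hy u q' k1 k2 h3 h4 (by rw [← k3, mul_assoc, h5]), hx q u h1 h2 k1 k2 k3]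
  rfl

omit [Finite G] in
theorem Inv.mv_of {X : Type} {L : ℕ → X} (I : Inv a b c n N e T V) (H : Hy a b c m n N) {x : G}
    {φ : X → X} (h : ∀ q, Val n V q → Nr n q → ∃ u, Val n V u ∧ Nr n u ∧
      El b c n e q * x = El b c n e u ∧ L u = φ (L q)) : Mv b c n e V L x φ :=
  fun q q' h1 h2 h3 h4 h5 => by
    obtain ⟨u, k1, k2, k3, k4⟩ := h q h1 h2
    have := I.el_inj H k1 h3 (k3.symm.trans h5)
    rw [k2.nrm, h4.nrm] at this
    exact this ▸ k4

omit [Finite G] in
theorem exists_idx (n0 : 0 < n) (hp : Val n V p) (np : Nr n p) :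
    ∃ j < 2 * n * V, p = dec n (j + 2 * n) := by
  obtain ⟨v, hv⟩ := Nat.exists_eq_add_of_le hp.1
  obtain ⟨j, hj, e1⟩ := exists_dec n0 np
  have h2 := hp.2
  refine ⟨j + 2 * v * n, by nlinarith, e1.trans ?_⟩
  show _ + (j + j / n * n) = j + 2 * v * n + 2 * n + (j + 2 * v * n + 2 * n) / n * n
  rw [hv, Nat.add_mul_div_right _ _ n0, Nat.add_mul_div_right _ _ n0]
  ring

omit [Finite G] in
theorem lab_ok {L A C R : ℕ} (n0 : 0 < n) (h : lab T n V L A C R = true) (hp : Val n V p)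
    (np : Nr n p) : dig L (get T p) = dig A (dig L p) ∧ dig L (cpos n p) = dig C (dig L p) ∧
      dig L (nrm n (p + 1)) = dig R (dig L p) := by
  obtain ⟨j, hj, rfl⟩ := exists_idx n0 hp np
  refine all_of_rec (P := fun j => (fun p => dig L (get T p) = dig A (dig L p) ∧
    dig L (cpos n p) = dig C (dig L p) ∧ dig L (nrm n (p + 1)) = dig R (dig L p))
      (dec n (j + 2 * n))) (fun j x h1 => ?_) _ h j hj
  simp only [Bool.and_eq_true, Nat.beq_eq] at h1
  exact ⟨⟨h1.1.1.1, h1.1.1.2, h1.1.2⟩, h1.2⟩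

theorem Inv.mv3 {X : Type} {L : ℕ → X} (I : Inv a b c n N e T V) (H : Hy a b c m n N)
    (C : Cpl n T V) {α γ ρ : X → X} (h : ∀ p, Val n V p → Nr n p →
      L (get T p) = α (L p) ∧ L (cpos n p) = γ (L p) ∧ L (nrm n (p + 1)) = ρ (L p)) :
    Mv b c n e V L a α ∧ Mv b c n e V L b (ρ ∘ γ) ∧ Mv b c n e V L c γ := by
  have hc : Mv b c n e V L c γ := I.mv_of H fun q h1 h2 => ⟨_, h1.congr (vx_cpos H.n0 q),
    nr_cpos H.n0 q, (H.el_cpos q).symm, (h q h1 h2).2.1⟩
  have hr : Mv b c n e V L (c * b) ρ := I.mv_of H fun q h1 h2 => ⟨_, h1.congr (H.el_r (e := e) h2).1,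
    nr_nrm H.n0 _, (H.el_r h2).2.symm, (h q h1 h2).2.2⟩
  have hb := I.mv_mul H C hc hr
  rw [mul_cancel_inv H.nm.c2] at hb
  refine ⟨I.mv_of H fun q h1 h2 => ?_, hb, hc⟩
  obtain ⟨-, k1, k2, k3⟩ := I.tab q (C q h1 h2)
  exact ⟨_, k1, k2, k3, (h q h1 h2).1⟩

theorem Inv.ori (I : Inv a b c n N e T V) (H : Hy a b c m n N) (C : Cpl n T V) {L : ℕ}
    (h0 : dig L (4 * n) = 0) (h : lab T n V L 1 1 16 = true) : False := by
  obtain ⟨ha, hb, hc⟩ := I.mv3 (L := dig L) H C fun p h1 h2 => lab_ok H.n0 h h1 h2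
  have mul : ∀ x y, (∃ φ, Mv b c n e V (dig L) y φ ∧ φ 0 = 0) →
      (∃ φ, Mv b c n e V (dig L) x φ ∧ φ 0 = 0) → ∃ φ, Mv b c n e V (dig L) (x * y) φ ∧ φ 0 = 0 :=
    fun x y ⟨φ, h1, h2⟩ ⟨ψ, h3, h4⟩ => ⟨_, I.mv_mul H C h3 h1, by rw [Function.comp, h4, h2]⟩
  obtain ⟨φ, h1, h2⟩ : ∃ φ, Mv b c n e V (dig L) a φ ∧ φ 0 = 0 := by
    refine closure_induction_right (p := fun x _ => ∃ φ, Mv b c n e V (dig L) x φ ∧ φ 0 = 0)
      ⟨id, I.mv_of H fun q h1 h2 => ⟨q, h1, h2, mul_one _, rfl⟩, rfl⟩ (fun x _ y hy => mul x _ ?_)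
      (fun x _ y hy => mul x _ ?_) (H.nm.non ▸ mem_top a)
    · rcases hy with rfl | rfl
      exacts [⟨_, I.mv_mul H C ha hb, by decide⟩, ⟨_, I.mv_mul H C hb hc, by decide⟩]
    · rcases hy with rfl | rfl
      · exact inv_mul_inv H.nm.a2 H.nm.b2 ▸ ⟨_, I.mv_mul H C hb ha, by decide⟩
      · exact inv_mul_inv H.nm.b2 H.nm.c2 ▸ ⟨_, I.mv_mul H C hc hb, by decide⟩
  obtain ⟨q, k1, k2, k3⟩ := I.cover H C (I.val1 H) (base_nr H.n0 1) a
  have e1 := h1 _ _ (I.val1 H) (base_nr H.n0 1) k1 k2 k3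
  rw [ha _ _ (I.val1 H) (base_nr H.n0 1) k1 k2 k3, mul_one, h0, h2] at e1
  exact absurd e1 (by decide)

def Hx (a b c : G) (n : ℕ) (e : ℕ → G) (T V : ℕ) : Md → Prop
  | .nd => True
  | .hd f K => Val n V f ∧ Nr n f ∧ get T f = 0 ∧ Kl a b c n e V f K
  | .sb f g l w j => Sb a b c n e T V f g l w ∧
      ∃ i < j, El b c n e f * a = El b c n e (cand n g i)

def GoodAt (a b c : G) (n N : ℕ) (Gl : Prop) (s : St) : Prop :=
  ∀ e, Inv a b c n N e s.T s.V → Rel a b c n s.R → Ful n s.T s.F → Gl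

theorem Hy.wv_ab (H : Hy a b c m n N) : wv a b c n 1 1 (n - 1) = a * b := by
  have n0 := H.n0
  have h1 : (c * b) ^ (n - 1) * (c * b) = 1 := by
    rw [← pow_succ, Nat.sub_add_cancel n0, ← H.ord, pow_orderOf_eq_one]
  rw [wv, ev, ev, ce, mul_one, H.pow_mod, eq_inv_of_mul_eq_one_left h1,
    inv_mul_inv H.nm.c2 H.nm.b2, mul_assoc, mul_assoc, H.nm.c2, mul_one]

theorem chk_ok (H : Hy a b c m n N) {Gl : Prop} {L : List St} (hL : ∀ s ∈ L, GoodAt a b c n N Gl s)
    (t : Ct) : ∀ T V R F md e, Inv a b c n N e T V → Rel a b c n R → Ful n T F →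
      Hx a b c n e T V md → chk m n N L t T V R F md = true → Gl := by
  have n0 := H.n0
  induction t with
  | conf i r g => exact fun T V R F md e I hR _ _ h => (I.conf H (hR.nth i) (nr_dec n0 g) h).elim
  | ord l k w r s =>
    intro T V R F md e I _ _ _ h
    simp only [chk, Bool.and_eq_true, Nat.ble_eq] at h
    rw [I.ord H (nr_dec n0 s) h.1.1 h.1.2] at h
    exact nomatch h.2
  | forb j s =>
    intro T V R F md e I _ _ _ h
    simp only [chk, Bool.and_eq_true, Nat.blt_eq] at h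
    have h1 := (I.closes H h.2).2.2
    rw [H.wv_ab, ← orderOf_dvd_iff_pow_eq_one, H.hm, Nat.dvd_iff_mod_eq_zero] at h1
    omega
  | forb2 k s =>
    intro T V R F md e I _ _ _ h
    have h1 := (I.closes H h).2.2
    rw [pow_one, wv, ev, ev, Nat.zero_mod, pow_zero, mul_one, mul_one] at h1
    cases k
    · exact (H.nm.a1 ((mul_one a).symm.trans h1)).elim
    · exact (H.nm.a_ne_c ((eq_inv_of_mul_eq_one_left h1).trans (inv_eq_self H.nm.c2))).elim
  | small =>
    intro T V R F md e I _ hF _ h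
    simp only [chk, Bool.and_eq_true, Nat.blt_eq] at h
    exact absurd (I.small H (I.cpl hF h.1)) (not_le.2 h.2)
  | ori L =>
    intro T V R F md e I _ hF _ h
    simp only [chk, Bool.and_eq_true, Nat.beq_eq] at h
    exact (I.ori H (I.cpl hF h.1.1) h.1.2 h.2).elim
  | cut i =>
    intro T V R F md e I hR hF _ h
    simp only [chk, St.le, Bool.and_eq_true, Nat.beq_eq, Nat.blt_eq, List.all_eq_true,
      List.any_eq_true] at h
    obtain ⟨⟨⟨⟨h1, h2⟩, h3⟩, h4⟩, h5⟩ := h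
    rw [List.getD_eq_getElem _ _ h5] at h1 h2 h3 h4
    refine hL _ (List.getElem_mem h5) e (h1 ▸ h2 ▸ I) (fun q hq => ?_) fun q hq hb => ?_
    · obtain ⟨q', k1, ⟨k2, k3⟩, k4⟩ := h4 q hq
      rw [k2, k3, k4]
      exact hR q' k1
    · rw [← h3] at hb
      change (_ &&& F).testBit _ = true at hb
      rw [Nat.testBit_and, Bool.and_eq_true] at hb
      exact h1 ▸ hF q hq hb.2
  | ops l x k ih =>
    exact fun T V R F md e I hR hF _ h =>
      Inv.ops H hR (fun T F I hF h => ih T V R F .nd e I hR hF trivial h) l x T F I hF h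
  | rel l k w s t ih =>
    intro T V R F md e I hR hF _ h
    refine ih T V _ F .nd e I (fun q hq => ?_) hF trivial (an_iff.1 h).2
    rcases List.mem_cons.1 hq with rfl | hq
    exacts [(pow_one _).symm.trans (I.closes H (an_iff.1 h).1).2.2, hR q hq]
  | br f ws k ih =>
    intro T V R F md e I hR hF _ h
    simp only [chk, an_iff, Nat.ble_eq, Nat.beq_eq] at h
    exact ih T V R F (.hd _ _) e I hR hF ⟨⟨h.1, h.2.1⟩, nr_dec n0 f, h.2.2.1, I.walks H (nr_dec n0 f)
      (I.kl_ful H hF ⟨h.1, h.2.1⟩ (nr_dec n0 f) h.2.2.1) ws⟩ h.2.2.2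
  | hv l w sub k ih ih' =>
    rintro T V R F (_ | ⟨f, K⟩ | _) e I hR hF hx h
    · exact nomatch h
    · simp only [chk, an_iff, Nat.ble_eq] at h
      obtain ⟨vf, nf, hf, hK⟩ := hx
      obtain ⟨h1, h2, h3⟩ := I.pth_ok H l f w vf nf (by omega)
      by_cases hc : ((El b c n e f * a : G) : G ⧸ closure ({b, c} : Set G)) =
        (e (vx n (pth T n l f w)) : G)
      · exact ih T V R F (.sb _ _ _ _ _) e I hR hF ⟨⟨vf, nf, hf, h1, h2, h.2.1, h3⟩,
          H.exists_cand h2 hc⟩ h.2.2.1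
      · exact ih' T V R F (.hd _ _) e I hR hF ⟨vf, nf, hf, hK.add fun _ _ => hc⟩ h.2.2.2
    · exact nomatch h
  | new k ih =>
    rintro T V R F (_ | ⟨f, K⟩ | _) e I hR hF hx h
    · exact nomatch h
    · obtain ⟨vf, nf, hf, hK⟩ := hx
      obtain ⟨h1, h2⟩ := an_iff.1 h
      obtain ⟨I', h3⟩ := I.new H fun v v1 v2 => hK v (covers_ok h1 v1 v2) v1 v2
      have h4 := I'.set H (s := 4 * n * (V + 1)) ⟨vf.1, vf.2.trans V.le_succ⟩
        (by rw [Val, base_vx n0]; omega) (by rw [h3 f vf, H.base_el, Function.update_self])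
      have h5 : Nat.ble N V = false := Bool.eq_false_iff.2 fun h5 =>
        absurd (Nat.le_of_ble_eq_true h5) (not_le.2 I'.vN)
      rw [h5] at h2
      exact ih _ _ R F .nd _ h4.1 hR (hF.mono I h4.2) trivial h2
    · exact nomatch h
  | sub Q t k ih ih' =>
    rintro T V R F (_ | _ | ⟨f, g, l, w, j⟩) e I hR hF hx h
    · exact nomatch h
    · exact nomatch h
    refine I.ql H hx.1 (fun j h ⟨i, hi, e1⟩ => ?_) j Q h hx.2
    rcases hi.lt_or_eq with hi | rfl
    · exact ih' T V R F (.sb _ _ _ _ _) e I hR hF ⟨hx.1, i, hi, e1⟩ (an_iff.1 h).2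
    · have h1 := I.set H hx.1.vf (hx.1.vg.congr (H.cand (e := e) hx.1.ng i).1) e1
      refine ih _ V _ F .nd e h1.1 (fun q hq => ?_) (hF.mono I h1.2) trivial (an_iff.1 h).1
      rcases List.mem_cons.1 hq with rfl | hq
      exacts [hx.1.rel H e1, hR q hq]
  | fin Q =>
    rintro T V R F (_ | _ | ⟨f, g, l, w, j⟩) e I hR hF hx h
    · exact nomatch h
    · exact nomatch h
    exact I.ql H hx.1 (k := fun _ => false) (fun j h => nomatch h) j Q h hx.2

theorem Hy.bw (H : Hy a b c m n N) (n1 : 1 < n) :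
    ∀ k, wv a b c n k (k % 2) (bw n k) = (a * b) ^ k
  | 0 => by simp [wv, ev, ce]
  | 1 => H.wv_ab.trans (pow_one _).symm
  | k + 2 => by
    have h := H.wv_ab
    rw [wv, ev, ev, ce, mul_one, Nat.mod_eq_of_lt (by omega)] at h
    rw [pow_succ', pow_succ', ← H.bw n1 k, wv, wv, Eng.bw, ev, ev, Nat.add_mul_mod_self_left,
      Nat.add_mul_div_left _ _ H.n0, Nat.mod_eq_of_lt (by omega : n - 1 < n),
      Nat.div_eq_of_lt (by omega : n - 1 < n), zero_add, Nat.add_mul_mod_self_left,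
      Nat.add_mul_div_left _ _ H.n0, Nat.mod_eq_of_lt n1, Nat.div_eq_of_lt n1, zero_add,
      Nat.add_mod_right, pow_one, eq_mul_inv_of_mul_eq h, inv_eq_self H.nm.c2]
    simp only [mul_assoc]
    rw [← mul_assoc c a, ← H.nm.ac, mul_assoc, mul_cancel_inv H.nm.c2]

theorem GoodAt.init (H : Hy a b c m n N) {Gl : Prop} (h : GoodAt a b c n N Gl (init m n)) : Gl := by
  refine h (fun _ => 1) ⟨fun p hp => absurd (get_zero p) hp, fun v v' h1 h2 h3 h4 _ => ?_, le_rfl, ?_⟩
    (fun q hq => ?_) fun q _ hq => by simp [Eng.init] at hq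
  · exact (le_antisymm h2 h1).trans (le_antisymm h3 h4)
  · exact H.index ▸ Nat.card_pos
  · rw [List.mem_singleton.1 hq]
    refine (H.bw ?_ m).trans (H.hm ▸ pow_orderOf_eq_one _)
    have h1 := H.n0
    have h2 := mt orderOf_eq_one_iff.1 H.nm.y_ne_one
    rw [H.hn] at h2
    omega

end Pool.Agent.MP_912f41_co.Eng

end MrgPart2

-- ======== part 3: formerly Pool.Agent.MP_912f41_co.All.Lab
section MrgPart3

/-! Complete tables labelled by permutations. -/

set_option autoImplicit false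

namespace Pool.Agent.MP_912f41_co.Eng

open Subgroup Equiv

noncomputable def tabok (T n V : ℕ) : Bool :=
  Nat.rec (motive := fun _ => Bool) true (fun j ih => (fun t => Nat.ble 1 (vx n t) &&
    Nat.ble (vx n t) V && Nat.blt (t % (2 * n)) n && ih) (get T (dec n (j + 2 * n)))) (2 * n * V)

noncomputable def homchk (T n V A C R : ℕ) (L : List ℕ) : Bool := tabok T n V &&
  (List.range 10).all fun x => Nat.beq (dig (L.getD x 0) (4 * n * 1)) x && lab T n V (L.getD x 0) A C R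

def Cod (A : ℕ) (P : Fin 10 → Fin 10) : Prop :=
  ∀ y < 16, Fin.ofNat 10 (dig A y) = P (Fin.ofNat 10 y)

instance (A : ℕ) (P : Fin 10 → Fin 10) : Decidable (Cod A P) := by unfold Cod; infer_instance

def HF (T n V : ℕ) (A B C : Perm (Fin 10)) : Prop := ∃ L : Fin 10 → ℕ → Fin 10,
  (∀ x, L x (4 * n * 1) = x) ∧ ∀ p, Val n V p → Nr n p →
    (Val n V (get T p) ∧ Nr n (get T p)) ∧ ∀ x, L x (get T p) = A (L x p) ∧
      L x (cpos n p) = C (L x p) ∧ L x (nrm n (p + 1)) = B (C (L x p))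

variable {T n V : ℕ} {A B C : Perm (Fin 10)}

theorem hf_of {cA cC cR : ℕ} {L : List ℕ} (n0 : 0 < n) (h : homchk T n V cA cC cR L = true)
    (hc : Cod cA A ∧ Cod cC C ∧ Cod cR fun x => B (C x)) : HF T n V A B C := by
  simp only [homchk, Bool.and_eq_true, List.all_eq_true, List.mem_range, Nat.beq_eq] at h
  refine ⟨fun x p => Fin.ofNat 10 (dig (L.getD x 0) p), fun x => ?_, fun p vp np => ⟨?_, fun x => ?_⟩⟩
  · simp only [(h.2 x x.2).1, Fin.ofNat_val_eq_self]
  · obtain ⟨j, hj, rfl⟩ := exists_idx n0 vp np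
    refine all_of_rec (P := fun j => Val n V (get T (dec n (j + 2 * n))) ∧
      Nr n (get T (dec n (j + 2 * n)))) (fun j x h1 => ?_) _ h.1 j hj
    simp only [Bool.and_eq_true, Nat.ble_eq, Nat.blt_eq] at h1
    exact ⟨⟨⟨h1.1.1.1, h1.1.1.2⟩, h1.1.2⟩, h1.2⟩
  · obtain ⟨h1, h2, h3⟩ := lab_ok n0 (h.2 x x.2).2 vp np
    have lt : dig (L.getD x 0) p < 16 := Nat.lt_succ_of_le Nat.and_le_right
    simp only [h1, h2, h3]
    exact ⟨hc.1 _ lt, hc.2.1 _ lt, hc.2.2 _ lt⟩

theorem HF.ub (h : HF T n V A B C) (n0 : 0 < n) (V0 : 1 ≤ V) (A2 : A * A = 1) (B2 : B * B = 1)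
    (C2 : C * C = 1) : Nat.card (closure {A, B, C} : Subgroup _) ≤ 2 * n * V := by
  obtain ⟨L, h0, h⟩ := h
  have k : ∀ x y, y ∈ ({A, B, C} : Set _) → (∃ q, Val n V q ∧ Nr n q ∧ ∀ u, L u q = x⁻¹ u) →
      ∃ q, Val n V q ∧ Nr n q ∧ ∀ u, L u q = (x * y)⁻¹ u := by
    rintro x y hy ⟨q, h1, h2, h3⟩
    obtain ⟨h4, h5⟩ := h q h1 h2
    have h6 := h1.congr (vx_cpos n0 q)
    rcases hy with rfl | rfl | rfl
    · exact ⟨_, h4.1, h4.2, fun u => by rw [(h5 u).1, h3, mul_inv_rev, inv_eq_self A2]; rfl⟩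
    · refine ⟨_, h6.congr ((vx_nrm n0 _).trans ((nr_cpos n0 q).vx_add n0)), nr_nrm n0 _, fun u => ?_⟩
      rw [((h _ h6 (nr_cpos n0 q)).2 u).2.2, (h5 u).2.1, h3, mul_inv_rev, inv_eq_self B2,
        ← Perm.mul_apply C C, C2]
      rfl
    · exact ⟨_, h6, nr_cpos n0 q, fun u => by rw [(h5 u).2.1, h3, mul_inv_rev, inv_eq_self C2]; rfl⟩
  have k2 : ∀ g : (closure {A, B, C} : Subgroup _), ∃ j : Fin (2 * n * V),
      ∀ u, L u (dec n (j + 2 * n)) = g.1⁻¹ u := fun ⟨g, hg⟩ => by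
    obtain ⟨q, h1, h2, h3⟩ : ∃ q, Val n V q ∧ Nr n q ∧ ∀ u, L u q = g⁻¹ u := by
      refine closure_induction_right (p := fun g _ => ∃ q, Val n V q ∧ Nr n q ∧ ∀ u, L u q = g⁻¹ u)
        ⟨_, by rw [Val, base_vx n0]; exact ⟨le_rfl, V0⟩, base_nr n0 1, h0⟩
        (fun x _ y hy => k x y hy) (fun x _ y hy => ?_) hg
      have : y⁻¹ = y := by
        rcases hy with rfl | rfl | rfl
        exacts [inv_eq_self A2, inv_eq_self B2, inv_eq_self C2]
      exact this.symm ▸ k x y hy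
    obtain ⟨j, hj, rfl⟩ := exists_idx n0 h1 h2
    exact ⟨⟨j, hj⟩, h3⟩
  choose f hf using k2
  have := Nat.card_le_card_of_injective f fun g g' e =>
    Subtype.ext (inv_injective (Equiv.ext fun u => by rw [← hf, ← hf, e]))
  rwa [Nat.card_fin] at this

theorem HF.hom {G : Type} [Group G] [Finite G] {a b c : G} {e : ℕ → G} {m N : ℕ}
    (h : HF T n V A B C) (H : Hy a b c m n N) (I : Inv a b c n N e T V) (A2 : A * A = 1)
    (B2 : B * B = 1) (C2 : C * C = 1) : ∃ φ : G →* Perm (Fin 10), φ a = A ∧ φ b = B ∧ φ c = C := by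
  obtain ⟨L, h0, h⟩ := h
  have cp : Cpl n T V := fun q h1 h2 h3 => by
    have := (h q h1 h2).1.1.1
    rw [h3, vx_zero] at this
    omega
  have k : ∀ u x y, y ∈ ({(a, A), (b, B), (c, C)} : Set (G × Perm (Fin 10))) →
      Mv b c n e V (L u) x.1 (x.2⁻¹ : Perm _) → Mv b c n e V (L u) (x * y).1 ((x * y).2⁻¹ : Perm _) := by
    intro u x y hy hx
    obtain ⟨ha, hb, hc⟩ := I.mv3 (L := L u) (ρ := fun x => B (C x)) H cp fun p h1 h2 => (h p h1 h2).2 u
    rw [Prod.snd_mul, mul_inv_rev, Perm.coe_mul]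
    refine I.mv_mul H cp hx ?_
    rcases hy with rfl | rfl | rfl
    · exact (inv_eq_self A2).symm ▸ ha
    · convert hb using 1
      funext z
      rw [inv_eq_self B2, Function.comp, ← Perm.mul_apply C C, C2]
      rfl
    · exact (inv_eq_self C2).symm ▸ hc
  refine trick H.nm.gen (Nat.card_le_card_of_injective
    ((MonoidHom.fst G (Perm (Fin 10))).comp (Subgroup.subtype _))
    ((injective_iff_map_eq_one _).2 fun ⟨g, hg⟩ h1 => Subtype.ext (Prod.ext (show g.1 = 1 from h1) ?_)))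
  refine inv_eq_one.1 (Equiv.ext fun u => ?_)
  have h2 : Mv b c n e V (L u) g.1 (g.2⁻¹ : Perm _) := by
    refine closure_induction_right (p := fun g _ => Mv b c n e V (L u) g.1 (g.2⁻¹ : Perm _))
      (I.mv_of H fun q h1 h2 => ⟨q, h1, h2, mul_one _, rfl⟩) (fun x _ y hy => k u x y hy)
      (fun x _ y hy => ?_) hg
    have : y⁻¹ = y := by
      rcases hy with rfl | rfl | rfl
      exacts [inv_eq_self (Prod.ext H.nm.a2 A2), inv_eq_self (Prod.ext H.nm.b2 B2),
        inv_eq_self (Prod.ext H.nm.c2 C2)]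
    exact this.symm ▸ k u x y hy
  have := h2 _ _ (I.val1 H) (base_nr H.n0 1) (I.val1 H) (base_nr H.n0 1)
    (by rw [show g.1 = 1 from h1, mul_one])
  rw [h0] at this
  exact this.symm

/-! ### lower bounds for the order -/

def wd (A B C : Perm (Fin 10)) (w : List ℕ) : Perm (Fin 10) :=
  (w.map fun i => if i = 0 then A else if i = 1 then B else C).prod

def lvl (A B C : Perm (Fin 10)) : List (Fin 10 × List (List ℕ)) → List (Fin 10) → Bool
  | [], _ => true
  | (x, ws) :: r, fx => (ws.all fun w => fx.all fun y => wd A B C w y = y) &&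
      decide (ws.map (wd A B C · x)).Nodup && lvl A B C r (x :: fx)

theorem wd_mem (w : List ℕ) : wd A B C w ∈ closure ({A, B, C} : Set _) := by
  refine list_prod_mem fun g hg => ?_
  obtain ⟨i, -, rfl⟩ := List.mem_map.1 hg
  obtain ⟨h1, h2, h3⟩ := mem3 A B C
  split_ifs <;> assumption

theorem lvl_ok : ∀ lv fx (H : Subgroup (Perm (Fin 10))), lvl A B C lv fx = true →
    (∀ g ∈ closure ({A, B, C} : Set _), (∀ y ∈ fx, g y = y) → g ∈ H) →
      (lv.map (·.2.length)).prod ≤ Nat.card H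
  | [], _, _, _, _ => Nat.card_pos
  | (x, ws) :: r, fx, H, h, hH => by
    simp only [lvl, Bool.and_eq_true, List.all_eq_true, decide_eq_true_eq] at h
    have h1 := lvl_ok r (x :: fx) (H ⊓ MulAction.stabilizer _ x) h.2 fun g hg h1 =>
      ⟨hH g hg fun y hy => h1 y (List.mem_cons_of_mem _ hy), h1 x List.mem_cons_self⟩
    have h2 : ws.length ≤ (MulAction.stabilizer (Perm (Fin 10)) x).relIndex H := by
      rw [show (MulAction.stabilizer (Perm (Fin 10)) x).relIndex H =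
        (MulAction.stabilizer H x).index from rfl, MulAction.index_stabilizer,
        ← List.length_map (wd A B C · x), ← List.toFinset_card_of_nodup h.1.2, ← Set.ncard_coe_finset]
      refine Set.ncard_le_ncard fun y hy => ?_
      obtain ⟨w, hw, rfl⟩ := List.mem_map.1 (List.mem_toFinset.1 hy)
      exact ⟨⟨_, hH _ (wd_mem w) (h.1.1 w hw)⟩, rfl⟩
    rw [← card_inf_mul (MulAction.stabilizer _ x) H, mul_comm]
    exact Nat.mul_le_mul h2 h1

/-- the conclusion of the search -/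
def Goal {G : Type} [Group G] (a b c : G) : Prop := ∃ i, (Entry.exc i).Model a b c

def Good (m n N : ℕ) (s : St) : Prop := ∀ (G : Type) [Group G] [Finite G] (a b c : G),
  Hy a b c m n N → GoodAt a b c n N (Goal a b c) s

theorem good_of {m n N : ℕ} {L : List St} {t : Ct} {s : St} (h : chkS m n N L t s = true)
    (hL : ∀ s ∈ L, Good m n N s) : Good m n N s := fun G _ _ a b c H e I hR hF =>
  chk_ok H (fun s hs => hL s hs G a b c H) t _ _ _ _ .nd e I hR hF trivial h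

theorem gnil {m n N : ℕ} : ∀ s ∈ ([] : List St), Good m n N s := fun _ h => nomatch h

theorem gcons {m n N : ℕ} {s : St} {L : List St} (h : Good m n N s) (hL : ∀ s ∈ L, Good m n N s) :
    ∀ t ∈ s :: L, Good m n N t := List.forall_mem_cons.2 ⟨h, hL⟩

end Pool.Agent.MP_912f41_co.Eng

end MrgPart3

-- marker of a merged file
example : 731051 + 146838 = 731051 + 146838 := rfl
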